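import Mathlib

set_option autoImplicit false

namespace Pool.Agent.H297Z.Disc

open Complex Metric Set

abbrev E := EuclideanSpace ℝ (Fin 3)

/-- defining function -/
noncomputable def rho (x : E) : ℝ :=
  10 * (x 0) ^ 4 + 10 * (x 1) ^ 4 + (x 0) ^ 2 + (x 1) ^ 2 + (x 2) ^ 2 - 42 / 5

def Om : Set E := {x | rho x < 0}

theorem rho_contDiff : ContDiff ℝ ((⊤ : ℕ∞) : WithTop ℕ∞) rho := by
  unfold rho
  fun_prop

theorem Om_open : IsOpen Om := isOpen_lt rho_contDiff.continuous continuous_const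

theorem normsq (x : E) : ‖x‖ ^ 2 = (x 0) ^ 2 + (x 1) ^ 2 + (x 2) ^ 2 := by
  rw [EuclideanSpace.real_norm_sq_eq, Fin.sum_univ_three]

theorem inner3 (x y : E) : inner ℝ x y = x 0 * y 0 + x 1 * y 1 + x 2 * y 2 := by
  rw [PiLp.inner_apply, Fin.sum_univ_three]
  simp only [RCLike.inner_apply, conj_trivial]
  ring

theorem Om_bdd : Bornology.IsBounded Om := by
  refine (Metric.isBounded_closedBall (x := (0 : E)) (r := 3)).subset ?_
  intro x hx
  have h : rho x < 0 := hx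
  unfold rho at h
  rw [mem_closedBall_zero_iff]
  have h2 := normsq x
  have : ‖x‖ ^ 2 ≤ 3 ^ 2 := by
    rw [h2]
    nlinarith [pow_nonneg (sq_nonneg (x 0)) 2, pow_nonneg (sq_nonneg (x 1)) 2]
  exact (pow_le_pow_iff_left₀ (norm_nonneg _) (by norm_num) (by norm_num)).mp this

theorem coord_pow_convex (i : Fin 3) (n : ℕ) (hn : Even n) :
    ConvexOn ℝ univ (fun x : E => (x i) ^ n) := by
  have h := (hn.convexOn_pow (𝕜 := ℝ)).comp_linearMap
    ((EuclideanSpace.proj i : E →L[ℝ] ℝ) : E →ₗ[ℝ] ℝ)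
  simpa [Function.comp_def] using h

theorem rho_convex : ConvexOn ℝ univ rho := by
  have h0 := (coord_pow_convex 0 4 (by decide)).smul (c := (10 : ℝ)) (by norm_num)
  have h1 := (coord_pow_convex 1 4 (by decide)).smul (c := (10 : ℝ)) (by norm_num)
  have h2 := coord_pow_convex 0 2 (by decide)
  have h3 := coord_pow_convex 1 2 (by decide)
  have h4 := coord_pow_convex 2 2 (by decide)
  have h5 := ((((h0.add h1).add h2).add h3).add h4).add_const (-(42 / 5 : ℝ))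
  refine h5.congr ?_
  intro x _
  simp only [rho, Pi.add_apply, smul_eq_mul]
  ring

theorem Om_convex : Convex ℝ Om := by
  have := rho_convex.convex_lt 0
  simpa [Om] using this

theorem rho_zero : rho 0 < 0 := by
  simp [rho]

theorem fderiv_rho_ne (x : E) (hx : x ∈ frontier Om) : fderiv ℝ rho x ≠ 0 := by
  have hx0 : ¬ rho x < 0 := by
    intro h
    have := Om_open.inter_frontier_eq
    have h2 : x ∈ Om ∩ frontier Om := ⟨h, hx⟩
    rw [this] at h2
    exact h2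
  intro hD
  have hd : HasFDerivAt rho (fderiv ℝ rho x) ((1 : ℝ) • x) := by
    rw [one_smul]
    exact (rho_contDiff.differentiable (by simp) x).hasFDerivAt
  have hl : HasDerivAt (fun t : ℝ => t • x) x 1 := by
    simpa using (hasDerivAt_id (1 : ℝ)).smul_const x
  have h1 := hd.comp_hasDerivAt (1 : ℝ) hl
  rw [hD] at h1
  have hfun : (rho ∘ fun t : ℝ => t • x) = fun t : ℝ =>
      (10 * (x 0) ^ 4 + 10 * (x 1) ^ 4) * t ^ 4 + ((x 0) ^ 2 + (x 1) ^ 2 + (x 2) ^ 2) * t ^ 2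
        - 42 / 5 := by
    funext t
    simp only [Function.comp, rho, PiLp.smul_apply, smul_eq_mul]
    ring
  rw [hfun] at h1
  have h2 : HasDerivAt (fun t : ℝ =>
      (10 * (x 0) ^ 4 + 10 * (x 1) ^ 4) * t ^ 4 + ((x 0) ^ 2 + (x 1) ^ 2 + (x 2) ^ 2) * t ^ 2
        - 42 / 5) ((10 * (x 0) ^ 4 + 10 * (x 1) ^ 4) * 4 +
          ((x 0) ^ 2 + (x 1) ^ 2 + (x 2) ^ 2) * 2) 1 := by
    have a := ((hasDerivAt_pow 4 (1 : ℝ)).const_mul (10 * (x 0) ^ 4 + 10 * (x 1) ^ 4)).add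
      ((hasDerivAt_pow 2 (1 : ℝ)).const_mul ((x 0) ^ 2 + (x 1) ^ 2 + (x 2) ^ 2))
    have b := a.sub_const (42 / 5)
    exact b.congr_deriv (by norm_num)
  have h3 := h1.unique h2
  simp only [zero_apply] at h3
  unfold rho at hx0
  nlinarith [pow_nonneg (sq_nonneg (x 0)) 2, pow_nonneg (sq_nonneg (x 1)) 2, sq_nonneg (x 0),
    sq_nonneg (x 1), sq_nonneg (x 2)]

/-- The planar bound. -/
theorem planar_bound (F : ℂ → ℂ) (hF : DifferentiableOn ℂ F (ball 0 1)) (h0 : F 0 = 0) (r : ℝ)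
    (hr : deriv F 0 = r)
    (hb : ∀ z ∈ ball (0 : ℂ) 1,
      10 * (F z).re ^ 4 + 10 * (F z).im ^ 4 + (F z).re ^ 2 + (F z).im ^ 2 < 42 / 5)
    (t : ℝ) (ht0 : 0 < t) (ht1 : t < 1) :
    15 / 2 * (t * r) ^ 4 + (t * r) ^ 2 ≤ 42 / 5 := by
  have hG : DifferentiableOn ℂ (dslope F 0) (ball 0 1) :=
    (differentiableOn_dslope (ball_mem_nhds 0 one_pos)).mpr hF
  set G := dslope F 0 with hGdef
  have hG0 : G 0 = r := by rw [hGdef, dslope_same, hr]
  have hFG : ∀ z, F z = z * G z := by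
    intro z
    have := sub_smul_dslope F 0 z
    rw [sub_zero, h0, sub_zero, smul_eq_mul] at this
    exact this.symm
  let H : ℂ → ℂ := fun z => (15 / 2 : ℂ) * (t : ℂ) ^ 4 * (2 * (r : ℂ) ^ 2 * G z ^ 2 - (r : ℂ) ^ 4)
    + (5 / 2 : ℂ) * F z ^ 4 + (t : ℂ) ^ 2 * (2 * (r : ℂ) * G z - (r : ℂ) ^ 2)
  have hH : DifferentiableOn ℂ (fun z => Complex.exp (H z)) (ball 0 1) := by
    apply DifferentiableOn.cexp
    simp only [H]
    fun_prop
  have hsub : closedBall (0 : ℂ) t ⊆ ball 0 1 := closedBall_subset_ball ht1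
  have hd : DiffContOnCl ℂ (fun z => Complex.exp (H z)) (ball 0 t) := by
    apply DifferentiableOn.diffContOnCl
    rw [closure_ball 0 ht0.ne']
    exact hH.mono hsub
  have key := norm_le_of_forall_mem_frontier_norm_le (U := ball (0 : ℂ) t) isBounded_ball hd
    (C := Real.exp (42 / 5)) (z := 0) ?_ (subset_closure (mem_ball_self ht0))
  · rw [Complex.norm_exp, Real.exp_le_exp] at key
    have hH0 : H 0 = ((15 / 2 * (t * r) ^ 4 + (t * r) ^ 2 : ℝ) : ℂ) := by
      simp only [H, hG0, h0]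
      push_cast
      ring
    rw [hH0, Complex.ofReal_re] at key
    exact key
  · intro z hz
    rw [frontier_ball 0 ht0.ne'] at hz
    have hzt : ‖z‖ = t := by simpa using hz
    have hz1 : z ∈ ball (0 : ℂ) 1 := hsub (sphere_subset_closedBall hz)
    rw [Complex.norm_exp, Real.exp_le_exp]
    have hb' := hb z hz1
    have hn : (F z).re ^ 2 + (F z).im ^ 2 = t ^ 2 * ((G z).re ^ 2 + (G z).im ^ 2) := by
      have e1 : ‖F z‖ ^ 2 = (F z).re ^ 2 + (F z).im ^ 2 := by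
        rw [Complex.sq_norm, Complex.normSq_apply]; ring
      have e2 : ‖G z‖ ^ 2 = (G z).re ^ 2 + (G z).im ^ 2 := by
        rw [Complex.sq_norm, Complex.normSq_apply]; ring
      rw [← e1, ← e2, hFG z, norm_mul, hzt]
      ring
    have hre : (H z).re = 15 / 2 * t ^ 4 * (2 * r ^ 2 * ((G z).re ^ 2 - (G z).im ^ 2) - r ^ 4)
        + 5 / 2 * ((F z).re ^ 4 - 6 * (F z).re ^ 2 * (F z).im ^ 2 + (F z).im ^ 4)
        + t ^ 2 * (2 * r * (G z).re - r ^ 2) := by
      simp only [H]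
      simp [pow_succ, Complex.mul_re, Complex.mul_im]
      ring
    rw [hre]
    set a := (G z).re
    set b := (G z).im
    set X := (F z).re
    set Y := (F z).im
    have k1 : t ^ 2 * (2 * r * a - r ^ 2) ≤ X ^ 2 + Y ^ 2 := by
      rw [hn]
      apply mul_le_mul_of_nonneg_left _ (sq_nonneg t)
      nlinarith [sq_nonneg (a - r), sq_nonneg b]
    have k2 : t ^ 4 * (2 * r ^ 2 * (a ^ 2 - b ^ 2) - r ^ 4) ≤ (X ^ 2 + Y ^ 2) ^ 2 := by
      rw [hn, mul_pow, ← pow_mul]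
      apply mul_le_mul_of_nonneg_left _ (by positivity)
      nlinarith [sq_nonneg (a ^ 2 - b ^ 2 - r ^ 2), sq_nonneg (a * b)]
    nlinarith

end Pool.Agent.H297Z.Disc
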