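import Pool.Agent.H297Z.DiscA

set_option autoImplicit false

namespace Pool.Agent.H297Z.Disc

open Complex Metric Set InnerProductSpace

/-- conformal harmonic maps of the disc into `Om` -/
def IsCH (f : ℂ → E) : Prop :=
  ContDiffOn ℝ 2 f (Metric.ball (0 : ℂ) 1) ∧
    (∀ z ∈ Metric.ball (0 : ℂ) 1, f z ∈ Om) ∧
    (∀ z ∈ Metric.ball (0 : ℂ) 1,
      ‖fderiv ℝ f z (1 : ℂ)‖ = ‖fderiv ℝ f z Complex.I‖ ∧
      inner ℝ (fderiv ℝ f z (1 : ℂ)) (fderiv ℝ f z Complex.I) = 0) ∧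
    (∀ z ∈ Metric.ball (0 : ℂ) 1,
      fderiv ℝ (fun w => fderiv ℝ f w (1 : ℂ)) z (1 : ℂ) +
        fderiv ℝ (fun w => fderiv ℝ f w Complex.I) z Complex.I = 0)

noncomputable def e0 : E := EuclideanSpace.single 0 1
noncomputable def e1 : E := EuclideanSpace.single 1 1

/-- reflection in the last coordinate -/
noncomputable def sig : E ≃ₗᵢ[ℝ] E :=
  LinearIsometryEquiv.piLpCongrRight 2
    (fun i : Fin 3 => if i = 2 then LinearIsometryEquiv.neg ℝ else LinearIsometryEquiv.refl ℝ ℝ)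

theorem sig0 (x : E) : sig x 0 = x 0 := by simp [sig]
theorem sig1 (x : E) : sig x 1 = x 1 := by simp [sig]
theorem sig2 (x : E) : sig x 2 = - x 2 := by simp [sig]

theorem sig_e0 : sig e0 = e0 := by
  ext i
  fin_cases i
  · exact sig0 _
  · exact sig1 _
  · simp [sig2, e0]

theorem sig_e1 : sig e1 = e1 := by
  ext i
  fin_cases i
  · exact sig0 _
  · exact sig1 _
  · simp [sig2, e1]

theorem fderiv_sig (f : ℂ → E) (z v : ℂ) :
    fderiv ℝ (fun w => sig (f w)) z v = sig (fderiv ℝ f z v) := by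
  have := sig.comp_fderiv (f := f) (x := z)
  have h2 : (fun w => sig (f w)) = sig ∘ f := rfl
  rw [h2, this]
  rfl

theorem IsCH.sig {f : ℂ → E} (hf : IsCH f) : IsCH (fun w => sig (f w)) := by
  obtain ⟨h1, h2, h3, h4⟩ := hf
  refine ⟨?_, ?_, ?_, ?_⟩
  · exact Disc.sig.contDiff.comp_contDiffOn h1
  · intro z hz
    have := h2 z hz
    change rho _ < 0 at this ⊢
    unfold rho at this ⊢
    rw [sig0, sig1, sig2]
    linarith [neg_sq (f z 2)]
  · intro z hz
    rw [fderiv_sig, fderiv_sig, LinearIsometryEquiv.norm_map, LinearIsometryEquiv.norm_map,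
      LinearIsometryEquiv.inner_map_map]
    exact h3 z hz
  · intro z hz
    simp only [fderiv_sig]
    rw [← map_add, h4 z hz, map_zero]

theorem fderiv_coord {f : ℂ → E} {z : ℂ} (hf : DifferentiableAt ℝ f z) (i : Fin 3) (v : ℂ) :
    fderiv ℝ (fun w => f w i) z v = fderiv ℝ f z v i := by
  have h := ((EuclideanSpace.proj i : E →L[ℝ] ℝ).hasFDerivAt.comp z hf.hasFDerivAt).fderiv
  have h2 : (fun w => f w i) = (EuclideanSpace.proj i : E →L[ℝ] ℝ) ∘ f := rfl
  rw [h2, h]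
  rfl

theorem IsCH.contDiffAt {f : ℂ → E} (hf : IsCH f) {z : ℂ} (hz : z ∈ ball (0 : ℂ) 1) :
    ContDiffAt ℝ 2 f z := hf.1.contDiffAt (isOpen_ball.mem_nhds hz)

theorem IsCH.diffAt {f : ℂ → E} (hf : IsCH f) {z : ℂ} (hz : z ∈ ball (0 : ℂ) 1) :
    DifferentiableAt ℝ f z := (hf.contDiffAt hz).differentiableAt (by simp)

theorem IsCH.harmonic {f : ℂ → E} (hf : IsCH f) {z : ℂ} (hz : z ∈ ball (0 : ℂ) 1) :
    HarmonicAt f z := by
  refine ⟨hf.contDiffAt hz, ?_⟩
  filter_upwards [isOpen_ball.mem_nhds hz] with w hw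
  have h2 : DifferentiableAt ℝ (fderiv ℝ f) w :=
    ((hf.contDiffAt hw).fderiv_right (m := 1) (by norm_num)).differentiableAt (by simp)
  have h4 := hf.2.2.2 w hw
  rw [fderiv_clm_apply h2 (by fun_prop), fderiv_clm_apply h2 (by fun_prop)] at h4
  simp only [laplacian_eq_iteratedFDeriv_complexPlane, iteratedFDeriv_two_apply, Fin.isValue,
      Matrix.cons_val_zero, Matrix.cons_val_one, Matrix.cons_val_fin_one, Pi.zero_apply]
  simpa using h4

theorem IsCH.harmonic_coord {f : ℂ → E} (hf : IsCH f) {z : ℂ} (hz : z ∈ ball (0 : ℂ) 1)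
    (i : Fin 3) : HarmonicAt (fun w => f w i) z :=
  (hf.harmonic hz).comp_CLM (EuclideanSpace.proj i : E →L[ℝ] ℝ)

/-- A planar conformal harmonic disc has small derivative. -/
theorem planar_lt {f : ℂ → E} (hf : IsCH f) (h0 : f 0 = 0) (r : ℝ) (hr : 0 < r)
    (hx : fderiv ℝ f 0 1 = r • e0) (hy : fderiv ℝ f 0 I = r • e1)
    (hpl : ∀ z ∈ ball (0 : ℂ) 1, f z 2 = 0) : r < 1 := by
  have hD2 : ∀ z ∈ ball (0 : ℂ) 1, ∀ v : ℂ, fderiv ℝ f z v 2 = 0 := by
    intro z hz v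
    rw [← fderiv_coord (hf.diffAt hz)]
    have : (fun w => f w 2) =ᶠ[nhds z] fun _ => (0 : ℝ) := by
      filter_upwards [isOpen_ball.mem_nhds hz] with w hw using hpl w hw
    rw [this.fderiv_eq]
    simp
  let A : ℂ → ℂ := fun z => fderiv ℝ (fun w => f w 0) z 1 - I * fderiv ℝ (fun w => f w 0) z I
  let B : ℂ → ℂ := fun z => fderiv ℝ (fun w => f w 1) z 1 - I * fderiv ℝ (fun w => f w 1) z I
  have hA : AnalyticOnNhd ℂ A (ball 0 1) := fun z hz =>
    HarmonicAt.analyticAt_complex_partial (hf.harmonic_coord hz 0)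
  have hB : AnalyticOnNhd ℂ B (ball 0 1) := fun z hz =>
    HarmonicAt.analyticAt_complex_partial (hf.harmonic_coord hz 1)
  have hP : AnalyticOnNhd ℂ (fun z => A z + I * B z) (ball 0 1) :=
    hA.add (analyticOnNhd_const.mul hB)
  have hQ : AnalyticOnNhd ℂ (fun z => A z - I * B z) (ball 0 1) :=
    hA.sub (analyticOnNhd_const.mul hB)
  have hprod : ∀ z ∈ ball (0 : ℂ) 1, (A z + I * B z) * (A z - I * B z) = 0 := by
    intro z hz
    obtain ⟨c1, c2⟩ := hf.2.2.1 z hz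
    have c3 : ‖fderiv ℝ f z 1‖ ^ 2 = ‖fderiv ℝ f z I‖ ^ 2 := by rw [c1]
    rw [normsq, normsq, hD2 z hz, hD2 z hz] at c3
    rw [inner3, hD2 z hz, hD2 z hz] at c2
    simp only [A, B, fderiv_coord (hf.diffAt hz)]
    apply Complex.ext
    · simp
      nlinarith
    · simp
      nlinarith
  have hzero : (0 : ℂ) ∈ ball (0 : ℂ) 1 := mem_ball_self one_pos
  rcases AnalyticOnNhd.eq_zero_or_eq_zero_of_mul_eq_zero hP hQ hprod
    (convex_ball (0 : ℂ) 1).isPreconnected with h | h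
  · exfalso
    have := h 0 hzero
    simp only [A, B, fderiv_coord (hf.diffAt hzero), hx, hy, e0, e1] at this
    have := congrArg Complex.re this
    simp at this
    linarith
  · let F : ℂ → ℂ := fun z => (f z 0 : ℂ) + (f z 1 : ℂ) * I
    have hFd : ∀ z ∈ ball (0 : ℂ) 1, HasFDerivAt F
        (ofRealCLM.comp (fderiv ℝ (fun w => f w 0) z) +
          I • ofRealCLM.comp (fderiv ℝ (fun w => f w 1) z)) z := by
      intro z hz
      have d0 : DifferentiableAt ℝ (fun w => f w 0) z :=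
        (hf.harmonic_coord hz 0).1.differentiableAt (by simp)
      have d1 : DifferentiableAt ℝ (fun w => f w 1) z :=
        (hf.harmonic_coord hz 1).1.differentiableAt (by simp)
      have a0 := ofRealCLM.hasFDerivAt.comp z d0.hasFDerivAt
      have a1 := (ofRealCLM.hasFDerivAt.comp z d1.hasFDerivAt).const_smul I
      have a2 := a0.add a1
      refine a2.congr_of_eventuallyEq (Filter.Eventually.of_forall ?_)
      intro w
      simp [F, mul_comm]
    have hCR : ∀ z ∈ ball (0 : ℂ) 1, fderiv ℝ F z I = I • fderiv ℝ F z 1 := by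
      intro z hz
      have hh := h z hz
      simp only [A, B] at hh
      have h1 := congrArg Complex.re hh
      have h2 := congrArg Complex.im hh
      simp at h1 h2
      rw [(hFd z hz).fderiv]
      apply Complex.ext
      · simp
        linarith
      · simp
        linarith
    have hFdiff : DifferentiableOn ℂ F (ball 0 1) := fun z hz =>
      (differentiableAt_complex_iff_differentiableAt_real.mpr
        ⟨(hFd z hz).differentiableAt, hCR z hz⟩).differentiableWithinAt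
    have hder : deriv F 0 = r := by
      rw [complexOfReal_deriv (hFd 0 hzero).differentiableAt (hCR 0 hzero), (hFd 0 hzero).fderiv]
      simp [fderiv_coord (hf.diffAt hzero), hx, e0]
    have hF0 : F 0 = 0 := by simp [F, h0]
    have hb := planar_bound F hFdiff hF0 r hder (by
      intro z hz
      have h1 : rho (f z) < 0 := hf.2.1 z hz
      unfold rho at h1
      rw [hpl z hz] at h1
      have e1 : (F z).re = f z 0 := by simp [F]
      have e2 : (F z).im = f z 1 := by simp [F]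
      rw [e1, e2]
      linarith) (999 / 1000) (by norm_num) (by norm_num)
    by_contra hcon
    have h1 : (999 / 1000 : ℝ) ≤ 999 / 1000 * r := by nlinarith
    have h2 := pow_le_pow_left₀ (by norm_num) h1 2
    have h4 := pow_le_pow_left₀ (by norm_num) h1 4
    norm_num at h2 h4 hb
    linarith

/-- componentwise real part -/
noncomputable def RR : (Fin 3 → ℂ) →L[ℝ] E :=
  (EuclideanSpace.equiv (Fin 3) ℝ).symm.toContinuousLinearMap.comp
    (ContinuousLinearMap.pi (fun i => reCLM.comp (ContinuousLinearMap.proj i)))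

theorem RR_apply (v : Fin 3 → ℂ) (i : Fin 3) : RR v i = (v i).re := by simp [RR]

theorem fderiv_RR {Φ : ℂ → Fin 3 → ℂ} {φ : Fin 3 → ℂ} {z : ℂ} (h : HasDerivAt Φ φ z) (v : ℂ) :
    fderiv ℝ (fun w => RR (Φ w)) z v = RR (v • φ) := by
  have h1 := RR.hasFDerivAt.comp z (h.hasFDerivAt.restrictScalars ℝ)
  have h2 : (fun w => RR (Φ w)) = RR ∘ Φ := rfl
  rw [h2, h1.fderiv]
  simp

noncomputable def Ph (z : ℂ) : Fin 3 → ℂ := ![z - z ^ 3 / 12, -I * (z + z ^ 3 / 12), z ^ 2 / 2]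
noncomputable def ph (z : ℂ) : Fin 3 → ℂ := ![1 - z ^ 2 / 4, -I * (1 + z ^ 2 / 4), z]
noncomputable def ph2 (z : ℂ) : Fin 3 → ℂ := ![- z / 2, -I * (z / 2), 1]

theorem Ph_deriv (z : ℂ) : HasDerivAt Ph (ph z) z := by
  rw [hasDerivAt_pi]
  intro i
  fin_cases i
  · have := (hasDerivAt_id z).sub ((hasDerivAt_pow 3 z).div_const 12)
    exact this.congr_deriv (by simp [ph]; ring)
  · have := ((hasDerivAt_id z).add ((hasDerivAt_pow 3 z).div_const 12)).const_mul (-I)
    exact this.congr_deriv (by simp [ph]; ring)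
  · have := ((hasDerivAt_pow 2 z).div_const 2)
    exact this.congr_deriv (by simp [ph])

theorem ph_deriv (z : ℂ) : HasDerivAt ph (ph2 z) z := by
  rw [hasDerivAt_pi]
  intro i
  fin_cases i
  · have := (hasDerivAt_const z (1 : ℂ)).sub ((hasDerivAt_pow 2 z).div_const 4)
    exact this.congr_deriv (by simp [ph2]; ring)
  · have := ((hasDerivAt_const z (1 : ℂ)).add ((hasDerivAt_pow 2 z).div_const 4)).const_mul (-I)
    exact this.congr_deriv (by simp [ph2]; ring)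
  · have := hasDerivAt_id z
    exact this.congr_deriv (by simp [ph2])

/-- the Enneper disc -/
noncomputable def enn (z : ℂ) : E := RR (Ph z)

theorem fderiv_enn (z v : ℂ) : fderiv ℝ enn z v = RR (v • ph z) := fderiv_RR (Ph_deriv z) v

theorem poly_bound (a : ℝ) (h0 : 0 ≤ a) (h1 : a ≤ 1) :
    10 * (a * (15 - 4 * a) ^ 2 / 144) ^ 2 + 10 * ((1 - a) * (15 - 4 * (1 - a)) ^ 2 / 144) ^ 2
      + a * (15 - 4 * a) ^ 2 / 144 + (1 - a) * (15 - 4 * (1 - a)) ^ 2 / 144 + 1 / 4 < 42 / 5 := by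
  have hm0 : 0 ≤ a * (1 - a) := mul_nonneg h0 (by linarith)
  have hm1 : a * (1 - a) ≤ 1 / 4 := by nlinarith [sq_nonneg (a - 1 / 2)]
  set m := a * (1 - a) with hm
  have e : 10 * (a * (15 - 4 * a) ^ 2 / 144) ^ 2
      + 10 * ((1 - a) * (15 - 4 * (1 - a)) ^ 2 / 144) ^ 2
      + a * (15 - 4 * a) ^ 2 / 144 + (1 - a) * (15 - 4 * (1 - a)) ^ 2 / 144 + 1 / 4
      = 10 * ((121 + 192 * m) ^ 2 - 2 * m * (165 + 16 * m) ^ 2) / 20736
        + (121 + 192 * m) / 144 + 1 / 4 := by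
    rw [hm]
    ring
  rw [e]
  nlinarith [mul_nonneg hm0 hm0, mul_nonneg hm0 (mul_nonneg hm0 hm0)]

theorem phi_mono (b c : ℝ) (_h0 : 0 ≤ b) (hbc : b ≤ c) (h1 : c ≤ 1) :
    b * (15 - 4 * b) ^ 2 / 144 ≤ c * (15 - 4 * c) ^ 2 / 144 := by
  have : c * (15 - 4 * c) ^ 2 - b * (15 - 4 * b) ^ 2
      = (c - b) * (225 - 120 * (b + c) + 16 * (b ^ 2 + b * c + c ^ 2)) := by ring
  have h2 : 0 ≤ 225 - 120 * (b + c) + 16 * (b ^ 2 + b * c + c ^ 2) := by
    nlinarith [mul_nonneg (sub_nonneg.mpr h1) (sub_nonneg.mpr (hbc.trans h1)),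
      sq_nonneg (1 - b), sq_nonneg (1 - c)]
  have h3 := mul_nonneg (sub_nonneg.mpr hbc) h2
  linarith

theorem sq_bound (x y : ℝ) (h : x ^ 2 + y ^ 2 ≤ 1) :
    (x - (x ^ 3 - 3 * x * y ^ 2) / 12) ^ 2 ≤ x ^ 2 * (15 - 4 * x ^ 2) ^ 2 / 144 := by
  have e : (x - (x ^ 3 - 3 * x * y ^ 2) / 12) ^ 2
      = x ^ 2 * (12 - x ^ 2 + 3 * y ^ 2) ^ 2 / 144 := by ring
  rw [e]
  have h1 : 0 ≤ 12 - x ^ 2 + 3 * y ^ 2 := by nlinarith [sq_nonneg y]
  have h2 : 12 - x ^ 2 + 3 * y ^ 2 ≤ 15 - 4 * x ^ 2 := by linarith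
  have h3 := pow_le_pow_left₀ h1 h2 2
  have h4 := mul_le_mul_of_nonneg_left h3 (sq_nonneg x)
  linarith

theorem enn_mem (z : ℂ) (hz : z ∈ ball (0 : ℂ) 1) : enn z ∈ Om := by
  have hn : z.re ^ 2 + z.im ^ 2 ≤ 1 := by
    have h1 : ‖z‖ < 1 := by simpa using hz
    have h2 : ‖z‖ ^ 2 = z.re ^ 2 + z.im ^ 2 := by
      rw [Complex.sq_norm, Complex.normSq_apply]; ring
    nlinarith [norm_nonneg z]
  have c0 : enn z 0 = z.re - (z.re ^ 3 - 3 * z.re * z.im ^ 2) / 12 := by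
    simp [enn, RR_apply, Ph, pow_succ]
    ring
  have c1 : enn z 1 = z.im - (z.im ^ 3 - 3 * z.im * z.re ^ 2) / 12 := by
    simp [enn, RR_apply, Ph, pow_succ]
    ring
  have c2 : enn z 2 = (z.re ^ 2 - z.im ^ 2) / 2 := by
    simp [enn, RR_apply, Ph, pow_succ]
  change rho _ < 0
  unfold rho
  rw [c0, c1, c2]
  set x := z.re
  set y := z.im
  have b0 := sq_bound x y hn
  have b1 := (sq_bound y x (by linarith)).trans
    (phi_mono (y ^ 2) (1 - x ^ 2) (sq_nonneg y) (by linarith) (by nlinarith [sq_nonneg x]))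
  have b2 : ((x ^ 2 - y ^ 2) / 2) ^ 2 ≤ 1 / 4 := by
    nlinarith [mul_nonneg (sq_nonneg x) (sq_nonneg y), sq_nonneg x, sq_nonneg y]
  have pb := poly_bound (x ^ 2) (sq_nonneg x) (by nlinarith [sq_nonneg y])
  have d0 := pow_le_pow_left₀ (sq_nonneg _) b0 2
  have d1 := pow_le_pow_left₀ (sq_nonneg _) b1 2
  rw [← pow_mul] at d0 d1
  norm_num at d0 d1
  linarith

theorem enn_isCH : IsCH enn := by
  refine ⟨?_, enn_mem, ?_, ?_⟩
  · apply ContDiff.contDiffOn
    have h : ContDiff ℝ 2 Ph := by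
      rw [contDiff_pi]
      intro i
      fin_cases i <;> simp only [Ph] <;> simp <;> fun_prop
    exact RR.contDiff.comp h
  · intro z _
    rw [fderiv_enn, fderiv_enn]
    constructor
    · have : ‖RR ((1 : ℂ) • ph z)‖ ^ 2 = ‖RR (I • ph z)‖ ^ 2 := by
        rw [normsq, normsq]
        simp [RR_apply, ph, pow_succ]
        ring
      exact (pow_left_inj₀ (norm_nonneg _) (norm_nonneg _) (by norm_num)).mp this
    · rw [inner3]
      simp [RR_apply, ph, pow_succ]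
      ring
  · intro z _
    simp only [fderiv_enn]
    have a1 : HasDerivAt (fun w => (1 : ℂ) • ph w) ((1 : ℂ) • ph2 z) z :=
      (ph_deriv z).const_smul (1 : ℂ)
    have a2 : HasDerivAt (fun w => I • ph w) (I • ph2 z) z := (ph_deriv z).const_smul I
    rw [fderiv_RR a1, fderiv_RR a2, ← map_add, smul_smul, smul_smul, I_mul_I]
    simp

theorem enn_zero : enn 0 = 0 := by
  ext i
  fin_cases i <;> simp [enn, RR_apply, Ph]

theorem enn_dx : fderiv ℝ enn 0 1 = (1 : ℝ) • e0 := by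
  rw [fderiv_enn]
  ext i
  fin_cases i <;> simp [RR_apply, ph, e0]

theorem enn_dy : fderiv ℝ enn 0 I = (1 : ℝ) • e1 := by
  rw [fderiv_enn]
  ext i
  fin_cases i <;> simp [RR_apply, ph, e1]

/-- extremal discs at the origin for the frame `(e0, e1)` -/
def Extremal (f : ℂ → E) : Prop :=
  ∃ r : ℝ, 0 < r ∧ IsCH f ∧ f 0 = 0 ∧ fderiv ℝ f 0 (1 : ℂ) = r • e0 ∧
    fderiv ℝ f 0 Complex.I = r • e1 ∧
    ∀ g : ℂ → E, ∀ s : ℝ, 0 < s → IsCH g → g 0 = 0 → fderiv ℝ g 0 (1 : ℂ) = s • e0 →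
      fderiv ℝ g 0 Complex.I = s • e1 → s ≤ r

theorem Extremal.sig {f : ℂ → E} (hf : Extremal f) : Extremal (fun w => sig (f w)) := by
  obtain ⟨r, hr, hch, h0, hx, hy, hmax⟩ := hf
  refine ⟨r, hr, hch.sig, by simp [h0], ?_, ?_, hmax⟩
  · rw [fderiv_sig, hx, map_smul, sig_e0]
  · rw [fderiv_sig, hy, map_smul, sig_e1]

theorem not_symm {f : ℂ → E} (hf : Extremal f) :
    ¬ EqOn (fun w => sig (f w)) f (ball (0 : ℂ) 1) := by
  intro h
  obtain ⟨r, hr, hch, h0, hx, hy, hmax⟩ := hf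
  have hpl : ∀ z ∈ ball (0 : ℂ) 1, f z 2 = 0 := by
    intro z hz
    have h1 : sig (f z) = f z := h hz
    have h2 := sig2 (f z)
    rw [h1] at h2
    linarith
  have h1 := planar_lt hch h0 r hr hx hy hpl
  have h2 := hmax enn 1 one_pos enn_isCH enn_zero enn_dx enn_dy
  linarith

end Pool.Agent.H297Z.Disc
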