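import Mathlib

set_option autoImplicit false

namespace Pool.Agent.H297Z.IET

open Set Complex BoundedContinuousFunction

noncomputable def rr : ℝ := 1 + Real.sqrt 2

theorem rr_sq : rr ^ 2 = 2 * rr + 1 := by
  have := Real.sq_sqrt (show (0 : ℝ) ≤ 2 by norm_num)
  unfold rr
  nlinarith

theorem rr_gt : 2 < rr := by
  have : (1 : ℝ) < Real.sqrt 2 := Real.one_lt_sqrt_two
  unfold rr
  linarith

theorem rr_pos : 0 < rr := by linarith [rr_gt]

/-- the quadrilateral with vertices `0, 2 - i, 3 - i, 5` -/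
def QQ : Set ℂ := {z | z.im ≤ 0 ∧ -1 ≤ z.im ∧ 0 ≤ z.re + 2 * z.im ∧ z.re - 2 * z.im ≤ 5}

theorem QQ_closed : IsClosed QQ := by
  unfold QQ
  simp only [ofPred_and]
  refine IsClosed.inter ?_ (IsClosed.inter ?_ (IsClosed.inter ?_ ?_)) <;>
    exact isClosed_le (by fun_prop) (by fun_prop)

noncomputable def Phi (g : ℝ → ℂ) (x : ℝ) : ℂ :=
  g (rr ^ 2 * x) / 5 + (2 - I) / 5 * g (rr * (x - 1)) +
    (2 + I) / 5 * (starRingEnd ℂ) (g (rr * (x - 1 - rr)))

def Pinned (g : ℝ → ℂ) : Prop := (∀ x, x ≤ 0 → g x = 0) ∧ (∀ x, 2 * rr + 1 ≤ x → g x = 5)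

theorem Phi_A {g : ℝ → ℂ} (hg : Pinned g) {x : ℝ} (hx : x ≤ 1) :
    Phi g x = g (rr ^ 2 * x) / 5 := by
  have h := rr_pos
  unfold Phi
  rw [hg.1 (rr * (x - 1)) (by nlinarith), hg.1 (rr * (x - 1 - rr)) (by nlinarith)]
  simp

theorem Phi_B {g : ℝ → ℂ} (hg : Pinned g) {x : ℝ} (hx : 1 ≤ x) (hx' : x ≤ 1 + rr) :
    Phi g x = 1 + (2 - I) / 5 * g (rr * (x - 1)) := by
  have h := rr_pos
  have h2 := rr_sq
  unfold Phi
  rw [hg.2 (rr ^ 2 * x) (by nlinarith), hg.1 (rr * (x - 1 - rr)) (by nlinarith)]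
  simp

theorem Phi_C {g : ℝ → ℂ} (hg : Pinned g) {x : ℝ} (hx : 1 + rr ≤ x) :
    Phi g x = 3 - I + (2 + I) / 5 * (starRingEnd ℂ) (g (rr * (x - 1 - rr))) := by
  have h := rr_pos
  have h2 := rr_sq
  unfold Phi
  rw [hg.2 (rr ^ 2 * x) (by nlinarith), hg.2 (rr * (x - 1)) (by nlinarith)]
  ring

theorem Phi_pinned {g : ℝ → ℂ} (hg : Pinned g) : Pinned (Phi g) := by
  have h := rr_pos
  have h2 := rr_sq
  constructor
  · intro x hx
    rw [Phi_A hg (by linarith), hg.1 _ (by nlinarith)]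
    simp
  · intro x hx
    rw [Phi_C hg (by linarith), hg.2 _ (by nlinarith)]
    have : (starRingEnd ℂ) (5 : ℂ) = 5 := map_ofNat _ 5
    rw [this]
    ring

theorem re_A (z : ℂ) : (z / 5).re = z.re / 5 := by simp
theorem im_A (z : ℂ) : (z / 5).im = z.im / 5 := by simp
theorem re_B (z : ℂ) : (1 + (2 - I) / 5 * z).re = 1 + (2 * z.re + z.im) / 5 := by
  simp; ring
theorem im_B (z : ℂ) : (1 + (2 - I) / 5 * z).im = (2 * z.im - z.re) / 5 := by
  simp; ring
theorem re_C (z : ℂ) :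
    (3 - I + (2 + I) / 5 * (starRingEnd ℂ) z).re = 3 + (2 * z.re + z.im) / 5 := by
  simp; ring
theorem im_C (z : ℂ) :
    (3 - I + (2 + I) / 5 * (starRingEnd ℂ) z).im = -1 + (z.re - 2 * z.im) / 5 := by
  simp; ring

theorem Phi_QQ {g : ℝ → ℂ} (hg : Pinned g) (hq : ∀ x, g x ∈ QQ) (x : ℝ) : Phi g x ∈ QQ := by
  rcases le_total x 1 with h | h
  · rw [Phi_A hg h]
    obtain ⟨a, b, c, d⟩ := hq (rr ^ 2 * x)
    refine ⟨?_, ?_, ?_, ?_⟩ <;> simp only [re_A, im_A] <;> linarith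
  rcases le_total x (1 + rr) with h' | h'
  · rw [Phi_B hg h h']
    obtain ⟨a, b, c, d⟩ := hq (rr * (x - 1))
    refine ⟨?_, ?_, ?_, ?_⟩ <;> simp only [re_B, im_B] <;> linarith
  · rw [Phi_C hg h']
    obtain ⟨a, b, c, d⟩ := hq (rr * (x - 1 - rr))
    refine ⟨?_, ?_, ?_, ?_⟩ <;> simp only [re_C, im_C] <;> linarith

theorem norm_c1 : ‖(2 - I) / 5‖ ≤ 9 / 20 := by
  have : ‖(2 - I) / 5‖ ^ 2 = 1 / 5 := by
    rw [Complex.sq_norm, Complex.normSq_apply]
    simp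
    norm_num
  nlinarith [norm_nonneg ((2 - I) / 5)]

theorem norm_c2 : ‖(2 + I) / 5‖ ≤ 9 / 20 := by
  have : ‖(2 + I) / 5‖ ^ 2 = 1 / 5 := by
    rw [Complex.sq_norm, Complex.normSq_apply]
    simp
    norm_num
  nlinarith [norm_nonneg ((2 + I) / 5)]

theorem Phi_dist {g g' : ℝ → ℂ} (hg : Pinned g) (hg' : Pinned g') {D : ℝ}
    (hD : ∀ x, ‖g x - g' x‖ ≤ D) (x : ℝ) : ‖Phi g x - Phi g' x‖ ≤ 9 / 20 * D := by
  have hD0 : 0 ≤ D := (norm_nonneg _).trans (hD 0)
  rcases le_total x 1 with h | h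
  · rw [Phi_A hg h, Phi_A hg' h, ← sub_div, norm_div]
    have := hD (rr ^ 2 * x)
    have h5 : ‖(5 : ℂ)‖ = 5 := by simp
    rw [h5]
    linarith
  rcases le_total x (1 + rr) with h' | h'
  · rw [Phi_B hg h h', Phi_B hg' h h', add_sub_add_left_eq_sub, ← mul_sub, norm_mul]
    exact mul_le_mul norm_c1 (hD _) (norm_nonneg _) (by norm_num)
  · rw [Phi_C hg h', Phi_C hg' h', add_sub_add_left_eq_sub, ← mul_sub, norm_mul, ← map_sub,
      Complex.norm_conj]
    exact mul_le_mul norm_c2 (hD _) (norm_nonneg _) (by norm_num)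

theorem QQ_norm {z : ℂ} (hz : z ∈ QQ) : ‖z‖ ≤ 6 := by
  obtain ⟨a, b, c, d⟩ := hz
  refine (Complex.norm_le_abs_re_add_abs_im z).trans ?_
  rw [abs_of_nonneg (by linarith), abs_of_nonpos a]
  linarith

def SS : Set (ℝ →ᵇ ℂ) := {g | Pinned g ∧ ∀ x, g x ∈ QQ}

theorem SS_closed : IsClosed SS := by
  have h1 : IsClosed {g : ℝ →ᵇ ℂ | ∀ x, x ≤ 0 → g x = 0} := by
    simp only [ofPred_forall]
    exact isClosed_iInter fun x => isClosed_iInter fun _ =>
      isClosed_eq (continuous_eval_const x) continuous_const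
  have h2 : IsClosed {g : ℝ →ᵇ ℂ | ∀ x, 2 * rr + 1 ≤ x → g x = 5} := by
    simp only [ofPred_forall]
    exact isClosed_iInter fun x => isClosed_iInter fun _ =>
      isClosed_eq (continuous_eval_const x) continuous_const
  have h3 : IsClosed {g : ℝ →ᵇ ℂ | ∀ x, g x ∈ QQ} := by
    simp only [ofPred_forall]
    exact isClosed_iInter fun x => QQ_closed.preimage (continuous_eval_const x)
  exact (h1.inter h2).inter h3

noncomputable def PhiS (g : SS) : SS :=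
  ⟨BoundedContinuousFunction.ofNormedAddCommGroup (Phi g.1)
    (by
      have := g.1.continuous
      unfold Phi
      fun_prop) 6 (fun x => QQ_norm (Phi_QQ g.2.1 g.2.2 x)),
    Phi_pinned g.2.1, Phi_QQ g.2.1 g.2.2⟩

theorem PhiS_contr : ContractingWith (9 / 20) PhiS := by
  refine ⟨by norm_num, LipschitzWith.of_dist_le_mul ?_⟩
  intro g g'
  change dist (PhiS g).1 (PhiS g').1 ≤ _ * dist g.1 g'.1
  rw [BoundedContinuousFunction.dist_le (by positivity)]
  intro x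
  rw [dist_eq_norm]
  have := Phi_dist g.2.1 g'.2.1 (D := dist g.1 g'.1) (fun y => by
    rw [← dist_eq_norm]
    exact BoundedContinuousFunction.dist_coe_le_dist y) x
  simpa [PhiS] using this

theorem SS_nonempty : Nonempty SS := by
  have h := rr_pos
  let g : ℝ → ℂ := fun x => ((5 * max 0 (min 1 (x / (2 * rr + 1))) : ℝ) : ℂ)
  have hq : ∀ x, g x ∈ QQ := by
    intro x
    have a : 0 ≤ max 0 (min 1 (x / (2 * rr + 1))) := le_max_left _ _
    have b : max 0 (min 1 (x / (2 * rr + 1))) ≤ 1 := max_le zero_le_one (min_le_left _ _)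
    refine ⟨?_, ?_, ?_, ?_⟩ <;> simp only [g, ofReal_re, ofReal_im] <;> linarith
  refine ⟨⟨BoundedContinuousFunction.ofNormedAddCommGroup g (by fun_prop) 6
    (fun x => QQ_norm (hq x)), ⟨?_, ?_⟩, hq⟩⟩
  · intro x hx
    change g x = 0
    have : x / (2 * rr + 1) ≤ 0 := div_nonpos_of_nonpos_of_nonneg hx (by linarith)
    simp only [g]
    rw [max_eq_left ((min_le_right _ _).trans this)]
    simp
  · intro x hx
    change g x = 5
    have : 1 ≤ x / (2 * rr + 1) := by rw [le_div_iff₀ (by linarith)]; linarith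
    simp only [g]
    rw [min_eq_left this]
    simp

theorem exists_curve : ∃ h : ℝ → ℂ, Continuous h ∧ Pinned h ∧ (∀ x, h x ∈ QQ) ∧
    ∀ x, h x = Phi h x := by
  have := SS_closed.completeSpace_coe
  have := SS_nonempty
  let g := ContractingWith.fixedPoint PhiS PhiS_contr
  have hg : PhiS g = g := ContractingWith.fixedPoint_isFixedPt PhiS_contr
  refine ⟨g.1, g.1.continuous, g.2.1, g.2.2, fun x => ?_⟩
  conv_lhs => rw [← hg]
  rfl

end Pool.Agent.H297Z.IET
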