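import Mathlib

set_option autoImplicit false

/-! Interval exchange transformations, planar piecewise isometries and embeddings. -/

namespace Pool.Agent.H297Z.IET

open Set

variable {d : ℕ}

/-- `π` is irreducible: it maps no proper nonempty initial segment of indices onto itself. -/
def Irreducible (π : Equiv.Perm (Fin d)) : Prop :=
  ∀ k : ℕ, 0 < k → k < d → π '' {i : Fin d | (i : ℕ) < k} ≠ {i : Fin d | (i : ℕ) < k}

/-- The left end point of the `j`-th interval: the sum of the lengths before it. -/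
noncomputable def left (μ : Fin d → ℝ) (j : Fin d) : ℝ := ∑ k ∈ Finset.univ.filter (· < j), μ k

/-- The whole interval `I = [0, ∑ μ)`. -/
def whole (μ : Fin d → ℝ) : Set ℝ := Ico 0 (∑ k, μ k)

/-- The `j`-th exchanged interval `I_j`. -/
def piece (μ : Fin d → ℝ) (j : Fin d) : Set ℝ := Ico (left μ j) (left μ j + μ j)

/-- The translation `τ_j = ∑_{π k < π j} μ k - ∑_{k < j} μ k`. -/
noncomputable def shift (π : Equiv.Perm (Fin d)) (μ : Fin d → ℝ) (j : Fin d) : ℝ :=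
  ∑ k ∈ Finset.univ.filter (fun k => π k < π j), μ k - left μ j

/-- `f` is the interval exchange map with data `(π, μ)`: `f x = x + τ_j` on `I_j`. -/
def IsIET (π : Equiv.Perm (Fin d)) (μ : Fin d → ℝ) (f : ℝ → ℝ) : Prop :=
  ∀ j, ∀ x ∈ piece μ j, f x = x + shift π μ j

/-- Every forward orbit of a point of `I` is dense in `I`. -/
def IsMinimal (μ : Fin d → ℝ) (f : ℝ → ℝ) : Prop :=
  ∀ x ∈ whole μ, whole μ ⊆ closure (range fun n : ℕ => f^[n] x)

/-- `T` is a piecewise isometry of the whole plane with `d` nonempty convex atoms `X j`, acting on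
`X j` by `z ↦ exp (i θ_j) z + λ_j` with `θ_j ∈ [0, 2π)`. -/
def IsPWI (X : Fin d → Set ℂ) (T : ℂ → ℂ) : Prop :=
  (∀ j, (X j).Nonempty ∧ Convex ℝ (X j)) ∧ Pairwise (fun i j => Disjoint (X i) (X j)) ∧
    (⋃ j, X j) = univ ∧
    ∃ (θ : Fin d → ℝ) (lam : Fin d → ℂ), (∀ j, θ j ∈ Ico 0 (2 * Real.pi)) ∧
      ∀ j, ∀ z ∈ X j, T z = Complex.exp (θ j * Complex.I) * z + lam j

/-- `h` is a continuous embedding of `(I, f)` into `(X, T)`. -/
def IsContEmbedding (μ : Fin d → ℝ) (f : ℝ → ℝ) (X : Fin d → Set ℂ) (T : ℂ → ℂ) (h : ℝ → ℂ) :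
    Prop :=
  InjOn h (whole μ) ∧ ContinuousOn h (whole μ) ∧
    (∀ j, Topology.IsEmbedding ((piece μ j).domRestrict h)) ∧
    (∀ j, h '' piece μ j ⊆ X j) ∧ T '' (h '' whole μ) = h '' whole μ ∧
    ∀ x ∈ whole μ, h (f x) = T (h x)

/-- `h x = z + v x` on `S`. -/
def IsLinearOn (h : ℝ → ℂ) (S : Set ℝ) : Prop :=
  ∃ z v : ℂ, ∀ x ∈ S, h x = z + v * x

/-- `h x = z + r exp (i (a x + b))` on `S`, with `r > 0`. -/
def IsArcOn (h : ℝ → ℂ) (S : Set ℝ) : Prop :=
  ∃ (z : ℂ) (r a b : ℝ), 0 < r ∧ ∀ x ∈ S, h x = z + r * Complex.exp ((a * x + b : ℝ) * Complex.I)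

/-- A trivial embedding: linear on every `I_j`, or an arc on every `I_j`. -/
def IsTrivial (μ : Fin d → ℝ) (h : ℝ → ℂ) : Prop :=
  (∀ j, IsLinearOn h (piece μ j)) ∨ (∀ j, IsArcOn h (piece μ j))

end Pool.Agent.H297Z.IET
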