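import Pool.Agent.H297Z.IETProp

set_option autoImplicit false

namespace Pool.Agent.H297Z.IET

open Set Complex

/-- `S` contains three collinear points and a fourth point off their line. -/
def Copy (S : Set ℂ) : Prop :=
  ∃ α β t : ℂ, α ≠ 0 ∧ t.im ≠ 0 ∧ β ∈ S ∧ β + α ∈ S ∧ β + 5 * α ∈ S ∧ β + t * α ∈ S

theorem Copy.not_collinear {S : Set ℂ} (hS : Copy S) : ¬ Collinear ℝ S := by
  obtain ⟨α, β, t, hα, ht, h0, h1, -, h3⟩ := hS
  rw [collinear_iff_of_mem h0]
  rintro ⟨v, hv⟩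
  obtain ⟨r, hr⟩ := hv _ h1
  obtain ⟨s, hs⟩ := hv _ h3
  simp only [vadd_eq_add, real_smul] at hr hs
  have e1 : α = r * v := by linear_combination hr
  have e2 : t * α = s * v := by linear_combination hs
  have hr0 : (r : ℂ) ≠ 0 := by
    intro h
    rw [h, zero_mul] at e1
    exact hα e1
  have hv0 : v ≠ 0 := by
    intro h
    rw [h, mul_zero] at e1
    exact hα e1
  have e3 : t * r = s := by
    apply mul_right_cancel₀ hv0
    rw [← e2, e1]
    ring
  have := congrArg Complex.im e3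
  simp at this
  rcases this with h | h
  · exact ht h
  · exact hr0 (by simp [h])

theorem Copy.not_cospherical {S : Set ℂ} (hS : Copy S) : ¬ EuclideanGeometry.Cospherical S := by
  obtain ⟨α, β, t, hα, -, h0, h1, h2, -⟩ := hS
  rintro ⟨c, r, hc⟩
  have sq : ∀ z ∈ S, (z.re - c.re) ^ 2 + (z.im - c.im) ^ 2 = r ^ 2 := by
    intro z hz
    rw [← hc z hz, Complex.dist_eq, Complex.sq_norm, Complex.normSq_apply]
    simp
    ring
  have a0 := sq _ h0
  have a1 := sq _ h1
  have a2 := sq _ h2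
  simp at a1 a2
  have : α.re ^ 2 + α.im ^ 2 = 0 := by nlinarith
  apply hα
  apply Complex.ext
  · simp; nlinarith [sq_nonneg α.re, sq_nonneg α.im]
  · simp; nlinarith [sq_nonneg α.re, sq_nonneg α.im]

theorem Copy.affine {S S' : Set ℂ} (hS : Copy S) (c e : ℂ) (hc : c ≠ 0)
    (h : ∀ z ∈ S, e + c * z ∈ S') : Copy S' := by
  obtain ⟨α, β, t, hα, ht, h0, h1, h2, h3⟩ := hS
  refine ⟨c * α, e + c * β, t, mul_ne_zero hc hα, ht, h _ h0, ?_, ?_, ?_⟩
  · have := h _ h1
    rwa [show e + c * (β + α) = e + c * β + c * α by ring] at this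
  · have := h _ h2
    rwa [show e + c * (β + 5 * α) = e + c * β + 5 * (c * α) by ring] at this
  · have := h _ h3
    rwa [show e + c * (β + t * α) = e + c * β + t * (c * α) by ring] at this

theorem Copy.conj {S S' : Set ℂ} (hS : Copy S) (c e : ℂ) (hc : c ≠ 0)
    (h : ∀ z ∈ S, e + c * (starRingEnd ℂ) z ∈ S') : Copy S' := by
  obtain ⟨α, β, t, hα, ht, h0, h1, h2, h3⟩ := hS
  refine ⟨c * (starRingEnd ℂ) α, e + c * (starRingEnd ℂ) β, (starRingEnd ℂ) t,
    mul_ne_zero hc (by simpa using hα), by simpa using ht, h _ h0, ?_, ?_, ?_⟩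
  · have := h _ h1
    rw [map_add] at this
    rwa [show e + c * ((starRingEnd ℂ) β + (starRingEnd ℂ) α)
      = e + c * (starRingEnd ℂ) β + c * (starRingEnd ℂ) α by ring] at this
  · have := h _ h2
    rw [map_add, map_mul, conj_five] at this
    rwa [show e + c * ((starRingEnd ℂ) β + 5 * (starRingEnd ℂ) α)
      = e + c * (starRingEnd ℂ) β + 5 * (c * (starRingEnd ℂ) α) by ring] at this
  · have := h _ h3
    rw [map_add, map_mul] at this
    rwa [show e + c * ((starRingEnd ℂ) β + (starRingEnd ℂ) t * (starRingEnd ℂ) α)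
      = e + c * (starRingEnd ℂ) β + (starRingEnd ℂ) t * (c * (starRingEnd ℂ) α) by ring] at this

variable {h : ℝ → ℂ}

theorem Curve.at_zero (H : Curve h) : h 0 = 0 := H.pin.1 0 le_rfl
theorem Curve.at_end (H : Curve h) : h (2 * rr + 1) = 5 := H.pin.2 _ le_rfl
theorem Curve.at_one (H : Curve h) : h 1 = 1 := by
  rw [H.eB le_rfl (by linarith [rr_pos])]
  simp [H.at_zero]
theorem Curve.at_mid (H : Curve h) : h (1 + rr) = 3 - I := by
  rw [H.eC le_rfl]
  simp [H.at_zero]

theorem Curve.copy_zero (H : Curve h) {b : ℝ} (hb : 0 < b) : Copy (h '' Icc 0 b) := by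
  have hr := rr_pos
  have hr2 := rr_gt
  obtain ⟨k, hk⟩ := pow_unbounded_of_one_lt ((2 * rr + 1) / b)
    (show (1 : ℝ) < rr ^ 2 by nlinarith)
  have hp : 0 < (rr ^ 2) ^ k := by positivity
  have mem : ∀ x, 0 ≤ x → x ≤ 2 * rr + 1 → h x / 5 ^ k ∈ h '' Icc 0 b := by
    intro x h0 h1
    refine ⟨x / (rr ^ 2) ^ k, ⟨by positivity, ?_⟩, H.scale k h1⟩
    rw [div_le_iff₀ hp]
    rw [div_lt_iff₀ hb] at hk
    linarith
  refine ⟨1 / 5 ^ k, 0, 3 - I, by simp, by simp, ?_, ?_, ?_, ?_⟩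
  · simpa [H.at_zero] using mem 0 le_rfl (by linarith)
  · simpa [H.at_one] using mem 1 zero_le_one (by linarith)
  · have := mem (2 * rr + 1) (by linarith) le_rfl
    rw [H.at_end] at this
    rwa [zero_add, mul_one_div]
  · have := mem (1 + rr) (by linarith) (by linarith)
    rw [H.at_mid] at this
    rwa [zero_add, mul_one_div]

theorem Curve.pullA (H : Curve h) {a b : ℝ} (hb : b ≤ 1)
    (hc : Copy (h '' Icc (rr ^ 2 * a) (rr ^ 2 * b))) : Copy (h '' Icc a b) := by
  have hr := rr_pos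
  refine hc.affine (1 / 5) 0 (by norm_num) ?_
  rintro z ⟨y, ⟨h1, h2⟩, rfl⟩
  have hp : 0 < rr ^ 2 := by positivity
  have k1 : a ≤ y / rr ^ 2 := by rw [le_div_iff₀ hp]; linarith
  have k2 : y / rr ^ 2 ≤ b := by rw [div_le_iff₀ hp]; linarith
  refine ⟨y / rr ^ 2, ⟨k1, k2⟩, ?_⟩
  rw [H.eA (k2.trans hb), mul_div_cancel₀ _ hp.ne']
  ring

theorem Curve.pullB (H : Curve h) {a b a' b' : ℝ} (h0 : 0 ≤ a') (h1 : b' ≤ rr * rr)
    (ha : rr * (a - 1) ≤ a') (hb : b' ≤ rr * (b - 1))
    (hc : Copy (h '' Icc a' b')) : Copy (h '' Icc a b) := by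
  have hr := rr_pos
  refine hc.affine ((2 - I) / 5) 1 c1_ne ?_
  rintro z ⟨y, ⟨h2, h3⟩, rfl⟩
  have k0 : 0 ≤ y / rr := div_nonneg (by linarith) hr.le
  have k1 : a - 1 ≤ y / rr := by rw [le_div_iff₀ hr]; linarith
  have k2 : y / rr ≤ b - 1 := by rw [div_le_iff₀ hr]; linarith
  have k3 : y / rr ≤ rr := by rw [div_le_iff₀ hr]; linarith
  refine ⟨1 + y / rr, ⟨by linarith, by linarith⟩, ?_⟩
  rw [H.eB (by linarith) (by linarith), add_sub_cancel_left, mul_div_cancel₀ _ hr.ne']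

theorem Curve.pullC (H : Curve h) {a b a' b' : ℝ} (h0 : 0 ≤ a')
    (ha : rr * (a - 1 - rr) ≤ a') (hb : b' ≤ rr * (b - 1 - rr))
    (hc : Copy (h '' Icc a' b')) : Copy (h '' Icc a b) := by
  have hr := rr_pos
  refine hc.conj ((2 + I) / 5) (3 - I) c2_ne ?_
  rintro z ⟨y, ⟨h2, h3⟩, rfl⟩
  have k0 : 0 ≤ y / rr := div_nonneg (by linarith) hr.le
  have k1 : a - 1 - rr ≤ y / rr := by rw [le_div_iff₀ hr]; linarith
  have k2 : y / rr ≤ b - 1 - rr := by rw [div_le_iff₀ hr]; linarith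
  refine ⟨1 + rr + y / rr, ⟨by linarith, by linarith⟩, ?_⟩
  rw [H.eC (by linarith)]
  have : rr * (1 + rr + y / rr - 1 - rr) = y := by
    rw [show 1 + rr + y / rr - 1 - rr = y / rr by ring, mul_div_cancel₀ _ hr.ne']
  rw [this]

theorem Curve.copy (H : Curve h) {a b : ℝ} (ha : 0 ≤ a) (hab : a < b) (hb : b ≤ 2 * rr + 1) :
    Copy (h '' Icc a b) := by
  have hr := rr_pos
  have hr2 := rr_gt
  have hs := rr_sq
  have key : ∀ n : ℕ, ∀ a b : ℝ, 0 ≤ a → a < b → b ≤ 2 * rr + 1 →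
      2 * rr + 1 < rr ^ n * (b - a) → Copy (h '' Icc a b) := by
    intro n
    induction n with
    | zero =>
      intro a b ha _ hb hn
      simp at hn
      linarith
    | succ n ih =>
      intro a b ha hab hb hn
      have hp : 0 < rr ^ n := pow_pos hr n
      rw [pow_succ] at hn
      rcases le_or_gt b 1 with hb1 | hb1
      · refine H.pullA hb1 (ih _ _ (by positivity) (by nlinarith) (by nlinarith) ?_)
        have : rr ^ n * rr * (b - a) ≤ rr ^ n * (rr ^ 2 * b - rr ^ 2 * a) := by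
          rw [mul_assoc]
          apply mul_le_mul_of_nonneg_left _ hp.le
          nlinarith
        linarith
      rcases le_or_gt a 1 with ha1 | ha1
      · refine H.pullB (a' := 0) (b' := min (rr * rr) (rr * (b - 1))) le_rfl (min_le_left _ _)
          (by nlinarith) (min_le_right _ _) (H.copy_zero (lt_min (by positivity) (by nlinarith)))
      rcases le_or_gt b (1 + rr) with hb2 | hb2
      · refine H.pullB (a' := rr * (a - 1)) (b' := rr * (b - 1)) (by nlinarith) (by nlinarith)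
          le_rfl le_rfl (ih _ _ (by nlinarith) (by nlinarith) (by nlinarith) ?_)
        have : rr ^ n * (rr * (b - 1) - rr * (a - 1)) = rr ^ n * rr * (b - a) := by ring
        linarith
      rcases le_or_gt a (1 + rr) with ha2 | ha2
      · exact H.pullC (a' := 0) (b' := rr * (b - 1 - rr)) le_rfl (by nlinarith) le_rfl
          (H.copy_zero (by nlinarith))
      · refine H.pullC (a' := rr * (a - 1 - rr)) (b' := rr * (b - 1 - rr)) (by nlinarith)
          le_rfl le_rfl (ih _ _ (by nlinarith) (by nlinarith) (by nlinarith) ?_)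
        have : rr ^ n * (rr * (b - 1 - rr) - rr * (a - 1 - rr)) = rr ^ n * rr * (b - a) := by
          ring
        linarith
  obtain ⟨n, hn⟩ := exists_pow_gt (b - a) (2 * rr + 1) (by linarith)
  exact key n a b ha hab hb hn

/-- the interval exchange map -/
noncomputable def ff (x : ℝ) : ℝ :=
  if x < 1 then x + 2 * rr else if x < 1 + rr then x + (rr - 1) else x + (-(1 + rr))

/-- the underlying rotation -/
noncomputable def rot (x : ℝ) : ℝ := if x < 1 + rr then x + 2 * rr else x - (1 + rr)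

theorem ff_maps {x : ℝ} (hx : x ∈ Ico 0 (2 * rr + 1)) : ff x ∈ Ico 0 (2 * rr + 1) := by
  have hr2 := rr_gt
  obtain ⟨h0, h1⟩ := hx
  unfold ff
  split_ifs with a b <;> constructor <;> linarith

theorem ff_surj {y : ℝ} (hy : y ∈ Ico 0 (2 * rr + 1)) : ∃ x ∈ Ico 0 (2 * rr + 1), ff x = y := by
  have hr2 := rr_gt
  obtain ⟨h0, h1⟩ := hy
  rcases lt_or_ge y rr with a | a
  · refine ⟨y + (1 + rr), ⟨by linarith, by linarith⟩, ?_⟩
    unfold ff
    rw [if_neg (by linarith), if_neg (by linarith)]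
    ring
  rcases lt_or_ge y (2 * rr) with b | b
  · refine ⟨y - (rr - 1), ⟨by linarith, by linarith⟩, ?_⟩
    unfold ff
    rw [if_neg (by linarith), if_pos (by linarith)]
    ring
  · refine ⟨y - 2 * rr, ⟨by linarith, by linarith⟩, ?_⟩
    unfold ff
    rw [if_pos (by linarith)]
    ring

theorem rot_maps {x : ℝ} (hx : x ∈ Ico 0 (0 + (3 * rr + 1))) :
    rot x ∈ Ico 0 (0 + (3 * rr + 1)) := by
  have hr2 := rr_gt
  obtain ⟨h0, h1⟩ := hx
  unfold rot
  split_ifs with a <;> constructor <;> linarith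

theorem rot_coe (x : ℝ) :
    ((rot x : ℝ) : AddCircle (3 * rr + 1)) = (x : AddCircle (3 * rr + 1)) + (2 * rr : ℝ) := by
  unfold rot
  split_ifs
  · rw [AddCircle.coe_add]
  · rw [← AddCircle.coe_add, show x + 2 * rr = x - (1 + rr) + (3 * rr + 1) by ring,
      AddCircle.coe_add_period]

theorem rot_irr : Irrational (2 * rr / (3 * rr + 1)) := by
  have hr := rr_pos
  rintro ⟨q, hq⟩
  have h1 : (q : ℝ) * (3 * rr + 1) = 2 * rr := by
    rw [hq]
    field_simp
  have h2 : (2 - 3 * q : ℝ) ≠ 0 := by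
    intro h
    have : (q : ℝ) = 2 / 3 := by linarith
    rw [this] at h1
    linarith
  apply irrational_sqrt_two
  refine ⟨q / (2 - 3 * q) - 1, ?_⟩
  have h3 : rr = q / (2 - 3 * q) := by
    rw [eq_div_iff h2]
    linarith
  push_cast
  rw [← h3]
  unfold rr
  ring

theorem rot_dense {x : ℝ} (hx : x ∈ Ico 0 (0 + (3 * rr + 1))) {u v : ℝ} (hu : 0 ≤ u)
    (huv : u < v) (hv : v ≤ 3 * rr + 1) : ∃ n : ℕ, rot^[n] x ∈ Ioo u v := by
  have hr := rr_pos
  have : Fact (0 < 3 * rr + 1) := ⟨by linarith⟩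
  have hd : DenseRange (fun n : ℕ => n • ((2 * rr : ℝ) : AddCircle (3 * rr + 1))) :=
    denseRange_zsmul_iff_nsmul.mp (AddCircle.denseRange_zsmul_coe_iff.mpr rot_irr)
  have hit : ∀ n : ℕ, rot^[n] x ∈ Ico 0 (0 + (3 * rr + 1)) ∧
      ((rot^[n] x : ℝ) : AddCircle (3 * rr + 1)) =
        (x : AddCircle (3 * rr + 1)) + n • ((2 * rr : ℝ) : AddCircle (3 * rr + 1)) := by
    intro n
    induction n with
    | zero => simpa using hx
    | succ n ih =>
      rw [Function.iterate_succ_apply']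
      refine ⟨rot_maps ih.1, ?_⟩
      rw [rot_coe, ih.2, succ_nsmul, add_assoc]
  have hopen : IsOpen (((↑) : ℝ → AddCircle (3 * rr + 1)) '' Ioo (u - x) (v - x)) :=
    QuotientAddGroup.isOpenMap_coe _ isOpen_Ioo
  obtain ⟨n, w, hw, hn⟩ := hd.exists_mem_open hopen
    ((nonempty_Ioo.mpr (by linarith)).image _)
  refine ⟨n, ?_⟩
  have h1 : ((rot^[n] x : ℝ) : AddCircle (3 * rr + 1)) = ((x + w : ℝ) : AddCircle (3 * rr + 1)) := by
    rw [(hit n).2, ← hn, AddCircle.coe_add]
  have h2 : x + w ∈ Ico 0 (0 + (3 * rr + 1)) := ⟨by linarith [hw.1], by linarith [hw.2]⟩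
  rw [(AddCircle.coe_eq_coe_iff_of_mem_Ico (hit n).1 h2).mp h1]
  exact ⟨by linarith [hw.1], by linarith [hw.2]⟩

theorem ff_minimal {x : ℝ} (hx : x ∈ Ico 0 (2 * rr + 1)) :
    Ico 0 (2 * rr + 1) ⊆ closure (range fun n : ℕ => ff^[n] x) := by
  have hr := rr_pos
  have hr2 := rr_gt
  have hin : ∀ m : ℕ, ff^[m] x ∈ Ico 0 (2 * rr + 1) := by
    intro m
    induction m with
    | zero => exact hx
    | succ m ih =>
      rw [Function.iterate_succ_apply']
      exact ff_maps ih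
  have key : ∀ n : ℕ, (∃ m : ℕ, ff^[m] x = rot^[n] x) ∨
      (2 * rr + 1 ≤ rot^[n] x ∧ ∃ m : ℕ, ff^[m] x = rot (rot^[n] x)) := by
    intro n
    induction n with
    | zero => exact Or.inl ⟨0, rfl⟩
    | succ n ih =>
      rw [Function.iterate_succ_apply']
      rcases ih with ⟨m, hm⟩ | ⟨_, hm⟩
      · have hy := hin m
        rw [← hm]
        set y := ff^[m] x with hydef
        have hnext : ff^[m + 1] x = ff y := Function.iterate_succ_apply' _ _ _
        rcases lt_or_ge y 1 with a | a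
        · refine Or.inl ⟨m + 1, ?_⟩
          rw [hnext, ff, rot, if_pos a, if_pos (by linarith)]
        rcases lt_or_ge y (1 + rr) with b | b
        · have e : rot y = y + 2 * rr := by rw [rot, if_pos b]
          refine Or.inr ⟨by rw [e]; linarith, m + 1, ?_⟩
          rw [hnext, e, ff, rot, if_neg (by linarith), if_pos b, if_neg (by linarith)]
          ring
        · refine Or.inl ⟨m + 1, ?_⟩
          rw [hnext, ff, rot, if_neg (by linarith), if_neg (by linarith), if_neg (by linarith)]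
          ring
      · exact Or.inl hm
  intro y hy
  rw [Metric.mem_closure_iff]
  intro ε hε
  obtain ⟨n, hn⟩ := rot_dense (x := x) ⟨hx.1, by linarith [hx.2]⟩ (u := y)
    (v := min (y + ε) (2 * rr + 1)) hy.1 (lt_min (by linarith) hy.2)
    ((min_le_right _ _).trans (by linarith))
  have h1 := lt_min_iff.mp hn.2
  rcases key n with ⟨m, hm⟩ | ⟨h2, _⟩
  · refine ⟨_, ⟨m, rfl⟩, ?_⟩
    simp only [hm, Real.dist_eq]
    rw [abs_sub_comm, abs_of_pos (by linarith [hn.1])]
    linarith [h1.1]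
  · linarith [h1.2]

end Pool.Agent.H297Z.IET
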