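import Pool.Agent.H297Z.IETDefs
import Pool.Agent.H297Z.IETWild

set_option autoImplicit false

namespace Pool.Agent.H297Z.IET

open Set Complex

noncomputable def cut (m j : ℕ) : ℝ :=
  if j = 0 then 0 else if j ≤ m + 1 then 1 / (rr ^ 2) ^ (m + 1 - j)
  else if j = m + 2 then 1 + rr else 2 * rr + 1

noncomputable def rcut (m j : ℕ) : ℝ := if j ≤ m + 1 then 1 / 5 ^ (m + 1 - j) else 3

theorem cut_one (m : ℕ) : cut m (m + 1) = 1 := by simp [cut]
theorem cut_two (m : ℕ) : cut m (m + 2) = 1 + rr := by simp [cut]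
theorem cut_three (m : ℕ) : cut m (m + 3) = 2 * rr + 1 := by simp [cut]
theorem cut_zero (m : ℕ) : cut m 0 = 0 := by simp [cut]

theorem cut_lt (m j : ℕ) (hj : j < m + 3) : cut m j < cut m (j + 1) := by
  have hr := rr_pos
  have hr2 := rr_gt
  rcases Nat.lt_or_ge j (m + 1) with a | a
  · have e : cut m (j + 1) = 1 / (rr ^ 2) ^ (m - j) := by
      unfold cut
      rw [if_neg (by omega), if_pos (by omega), show m + 1 - (j + 1) = m - j by omega]
    rw [e]
    unfold cut
    split_ifs with b c
    · positivity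
    · apply one_div_lt_one_div_of_lt (by positivity)
      exact pow_lt_pow_right₀ (by nlinarith) (by omega)
    · omega
    · omega
  · rcases Nat.eq_or_lt_of_le a with b | b
    · rw [← b, cut_one, cut_two]
      linarith
    · have : j = m + 2 := by omega
      rw [this, cut_two, cut_three]
      linarith

theorem cut_mono (m : ℕ) {i j : ℕ} (hij : i ≤ j) (hj : j ≤ m + 3) : cut m i ≤ cut m j := by
  induction j, hij using Nat.le_induction with
  | base => exact le_rfl
  | succ j _ ih => exact (ih (by omega)).trans (cut_lt m j (by omega)).le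

theorem rcut_mono (m : ℕ) {i j : ℕ} (hij : i ≤ j) : rcut m i ≤ rcut m j := by
  unfold rcut
  split_ifs with a b b
  · apply one_div_le_one_div_of_le (by positivity)
    exact pow_le_pow_right₀ (by norm_num) (by omega)
  · have : (1 : ℝ) / 5 ^ (m + 1 - i) ≤ 1 := by
      rw [div_le_one (by positivity)]
      exact one_le_pow₀ (by norm_num)
    linarith
  · omega
  · exact le_rfl

theorem rcut_one (m : ℕ) : rcut m (m + 1) = 1 := by simp [rcut]
theorem rcut_two (m : ℕ) : rcut m (m + 2) = 3 := by simp [rcut]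

variable {h : ℝ → ℂ}

theorem Curve.lt_rcut (H : Curve h) (m j : ℕ) (h1 : 1 ≤ j) (h2 : j ≤ m + 2) {x : ℝ}
    (hx : x < cut m j) : (h x).re < rcut m j := by
  rcases Nat.eq_or_lt_of_le h2 with a | a
  · rw [a, cut_two] at hx
    rw [a, rcut_two]
    exact H.re_lt_three hx
  · unfold cut at hx
    rw [if_neg (by omega), if_pos (by omega)] at hx
    unfold rcut
    rw [if_pos (by omega)]
    exact H.re_lt_cut _ hx

theorem Curve.ge_rcut (H : Curve h) (m j : ℕ) (h1 : 1 ≤ j) (h2 : j ≤ m + 2) {x : ℝ}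
    (hx : cut m j ≤ x) : rcut m j ≤ (h x).re := by
  rcases Nat.eq_or_lt_of_le h2 with a | a
  · rw [a, cut_two] at hx
    rw [a, rcut_two]
    exact H.re_ge_three hx
  · unfold cut at hx
    rw [if_neg (by omega), if_pos (by omega)] at hx
    unfold rcut
    rw [if_pos (by omega)]
    exact H.re_ge_cut _ x hx

noncomputable def len (m : ℕ) (j : Fin (m + 3)) : ℝ := cut m (j + 1) - cut m j

theorem sum_range_len (m n : ℕ) :
    ∑ k ∈ Finset.range n, (cut m (k + 1) - cut m k) = cut m n := by
  rw [Finset.sum_range_sub (cut m) n, cut_zero, sub_zero]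

theorem total_len (m : ℕ) : ∑ k, len m k = 2 * rr + 1 := by
  unfold len
  rw [Fin.sum_univ_eq_sum_range (fun k => cut m (k + 1) - cut m k) (m + 3), sum_range_len,
    cut_three]

theorem left_len (m : ℕ) (j : Fin (m + 3)) : left (len m) j = cut m j := by
  unfold left len
  rw [Finset.sum_filter]
  have e : ∀ k : Fin (m + 3), (if k < j then cut m (k + 1) - cut m k else 0) =
      (fun k : ℕ => if k < (j : ℕ) then cut m (k + 1) - cut m k else 0) k := fun k => rfl
  rw [Finset.sum_congr rfl (fun k _ => e k),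
    Fin.sum_univ_eq_sum_range (fun k : ℕ => if k < (j : ℕ) then cut m (k + 1) - cut m k else 0),
    ← Finset.sum_filter]
  have : (Finset.range (m + 3)).filter (fun k => k < (j : ℕ)) = Finset.range j := by
    ext k
    have := j.isLt
    simp only [Finset.mem_filter, Finset.mem_range]
    omega
  rw [this, sum_range_len]

theorem piece_len (m : ℕ) (j : Fin (m + 3)) :
    piece (len m) j = Ico (cut m j) (cut m (j + 1)) := by
  unfold piece
  rw [left_len]
  unfold len
  congr 1
  ring

theorem whole_len (m : ℕ) : whole (len m) = Ico 0 (2 * rr + 1) := by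
  unfold whole
  rw [total_len]

def perm (m : ℕ) : Equiv.Perm (Fin (m + 3)) where
  toFun j := ⟨if (j : ℕ) ≤ m then j + 2 else m + 2 - j, by split_ifs <;> omega⟩
  invFun i := ⟨if (i : ℕ) ≤ 1 then m + 2 - i else i - 2, by split_ifs <;> omega⟩
  left_inv j := by
    have := j.isLt
    ext
    simp only
    split_ifs <;> omega
  right_inv i := by
    have := i.isLt
    ext
    simp only
    split_ifs <;> omega

theorem perm_val (m : ℕ) (j : Fin (m + 3)) :
    ((perm m j : Fin (m + 3)) : ℕ) =
      if (j : ℕ) ≤ m then (j : ℕ) + 2 else m + 2 - (j : ℕ) := rfl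

theorem perm_irr (m : ℕ) : Irreducible (perm m) := by
  intro k h0 h1 heq
  have : (⟨0, by omega⟩ : Fin (m + 3)) ∈ (perm m) '' {i : Fin (m + 3) | (i : ℕ) < k} := by
    rw [heq]
    exact h0
  obtain ⟨i, hi, he⟩ := this
  have h2 := congrArg Fin.val he
  rw [perm_val] at h2
  have h3 : (i : ℕ) < k := hi
  simp only at h2
  split_ifs at h2 <;> omega

def iB (m : ℕ) : Fin (m + 3) := ⟨m + 1, by omega⟩
def iC (m : ℕ) : Fin (m + 3) := ⟨m + 2, by omega⟩

theorem len_B (m : ℕ) : len m (iB m) = rr := by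
  change cut m (m + 2) - cut m (m + 1) = rr
  rw [cut_one, cut_two]
  ring

theorem len_C (m : ℕ) : len m (iC m) = rr := by
  change cut m (m + 3) - cut m (m + 2) = rr
  rw [cut_three, cut_two]
  ring

theorem shift_A (m : ℕ) (j : Fin (m + 3)) (hj : (j : ℕ) ≤ m) :
    shift (perm m) (len m) j = 2 * rr := by
  unfold shift
  have : Finset.univ.filter (fun k => perm m k < perm m j) =
      insert (iC m) (insert (iB m) (Finset.univ.filter (· < j))) := by
    ext k
    have := k.isLt
    simp only [Finset.mem_filter, Finset.mem_univ, true_and, Finset.mem_insert, Fin.lt_def,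
      perm_val, Fin.ext_iff, iB, iC]
    split_ifs <;> omega
  rw [this, Finset.sum_insert, Finset.sum_insert, len_B, len_C]
  · unfold left
    ring
  · simp only [Finset.mem_filter, Finset.mem_univ, true_and, Fin.lt_def, iB]
    omega
  · simp only [Finset.mem_filter, Finset.mem_univ, true_and, Finset.mem_insert, Fin.lt_def,
      Fin.ext_iff, iB, iC]
    omega

theorem shift_B (m : ℕ) : shift (perm m) (len m) (iB m) = rr - 1 := by
  unfold shift
  have : Finset.univ.filter (fun k => perm m k < perm m (iB m)) = {iC m} := by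
    ext k
    have := k.isLt
    simp only [Finset.mem_filter, Finset.mem_univ, true_and, Finset.mem_singleton, Fin.lt_def,
      perm_val, Fin.ext_iff, iB, iC]
    split_ifs <;> omega
  rw [this, Finset.sum_singleton, len_C, left_len]
  change rr - cut m (m + 1) = _
  rw [cut_one]

theorem shift_C (m : ℕ) : shift (perm m) (len m) (iC m) = -(1 + rr) := by
  unfold shift
  have : Finset.univ.filter (fun k => perm m k < perm m (iC m)) = ∅ := by
    ext k
    have := k.isLt
    simp only [Finset.mem_filter, Finset.mem_univ, true_and, Finset.notMem_empty, Fin.lt_def,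
      perm_val, iC, iff_false]
    split_ifs <;> omega
  rw [this, Finset.sum_empty, left_len]
  change 0 - cut m (m + 2) = _
  rw [cut_two]
  ring

theorem idx_cases (m : ℕ) (j : Fin (m + 3)) : (j : ℕ) ≤ m ∨ j = iB m ∨ j = iC m := by
  have := j.isLt
  simp only [Fin.ext_iff, iB, iC]
  omega

theorem ff_isIET (m : ℕ) : IsIET (perm m) (len m) ff := by
  have hr := rr_pos
  intro j x hx
  rw [piece_len] at hx
  rcases idx_cases m j with a | rfl | rfl
  · have : x < 1 := by
      have := cut_mono m (i := j + 1) (j := m + 1) (by omega) (by omega)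
      rw [cut_one] at this
      linarith [hx.2]
    rw [shift_A m j a, ff, if_pos this]
  · have h1 : cut m (m + 1) ≤ x := hx.1
    have h2 : x < cut m (m + 2) := hx.2
    rw [cut_one] at h1
    rw [cut_two] at h2
    rw [shift_B, ff, if_neg (by linarith), if_pos h2]
  · have h1 : cut m (m + 2) ≤ x := hx.1
    rw [cut_two] at h1
    rw [shift_C, ff, if_neg (by linarith), if_neg (by linarith)]

def atom (m : ℕ) (j : Fin (m + 3)) : Set ℂ :=
  {z | ((j : ℕ) = 0 ∨ rcut m j ≤ z.re) ∧ ((j : ℕ) = m + 2 ∨ z.re < rcut m (j + 1))}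

noncomputable def TT (z : ℂ) : ℂ :=
  if z.re < 1 then z + 4 else if z.re < 3 then (3 + 4 * I) / 5 * z + (7 - 9 * I) / 5
  else (3 - 4 * I) / 5 * z + (-1 + 3 * I)

theorem Curve.image_atom (H : Curve h) (m : ℕ) (j : Fin (m + 3)) :
    h '' piece (len m) j ⊆ atom m j := by
  rintro z ⟨x, hx, rfl⟩
  rw [piece_len] at hx
  have := j.isLt
  constructor
  · rcases Nat.eq_zero_or_pos j with a | a
    · exact Or.inl a
    · exact Or.inr (H.ge_rcut m j a (by omega) hx.1)
  · rcases Nat.lt_or_ge j (m + 2) with a | a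
    · exact Or.inr (H.lt_rcut m (j + 1) (by omega) (by omega) hx.2)
    · exact Or.inl (by omega)

theorem exists_slot (r : ℕ → ℝ) (t : ℝ) (N : ℕ) :
    ∃ j ≤ N, (j = 0 ∨ r j ≤ t) ∧ (j = N ∨ t < r (j + 1)) := by
  induction N with
  | zero => exact ⟨0, le_rfl, Or.inl rfl, Or.inl rfl⟩
  | succ N ih =>
    obtain ⟨j, hj, h1, h2⟩ := ih
    rcases lt_or_ge t (r (j + 1)) with a | a
    · exact ⟨j, by omega, h1, Or.inr a⟩
    · rcases h2 with rfl | h2
      · exact ⟨j + 1, le_rfl, Or.inr a, Or.inl rfl⟩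
      · linarith

theorem exists_angle (u : ℂ) (hu : ‖u‖ = 1) :
    ∃ θ : ℝ, θ ∈ Ico 0 (2 * Real.pi) ∧ Complex.exp (θ * I) = u := by
  have h1 : Complex.exp (u.arg * I) = u := by
    have := Complex.norm_mul_exp_arg_mul_I u
    rwa [hu, ofReal_one, one_mul] at this
  have hp := Real.pi_pos
  rcases le_or_gt 0 u.arg with a | a
  · exact ⟨u.arg, ⟨a, by linarith [Complex.arg_le_pi u]⟩, h1⟩
  · refine ⟨u.arg + 2 * Real.pi, ⟨by linarith [Complex.neg_pi_lt_arg u], by linarith⟩, ?_⟩
    push_cast
    rw [add_mul, Complex.exp_add, Complex.exp_two_pi_mul_I, mul_one, h1]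

theorem norm_w1 : ‖(3 + 4 * I) / 5‖ = 1 := by
  have : ‖(3 + 4 * I) / 5‖ ^ 2 = 1 ^ 2 := by
    rw [Complex.sq_norm, Complex.normSq_apply]
    simp
    norm_num
  exact (pow_left_inj₀ (norm_nonneg _) zero_le_one (by norm_num)).mp this

theorem norm_w2 : ‖(3 - 4 * I) / 5‖ = 1 := by
  have : ‖(3 - 4 * I) / 5‖ ^ 2 = 1 ^ 2 := by
    rw [Complex.sq_norm, Complex.normSq_apply]
    simp
    norm_num
  exact (pow_left_inj₀ (norm_nonneg _) zero_le_one (by norm_num)).mp this

theorem Curve.isPWI (H : Curve h) (m : ℕ) : IsPWI (atom m) TT := by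
  refine ⟨fun j => ⟨?_, ?_⟩, ?_, ?_, ?_⟩
  · refine ⟨h (cut m j), H.image_atom m j ⟨_, ?_, rfl⟩⟩
    rw [piece_len]
    exact ⟨le_rfl, cut_lt m j j.isLt⟩
  · have c1 : Convex ℝ {z : ℂ | (j : ℕ) = 0 ∨ rcut m j ≤ z.re} := by
      by_cases a : (j : ℕ) = 0
      · simpa [a] using convex_univ
      · simpa [a] using convex_halfSpace_re_ge (rcut m j)
    have c2 : Convex ℝ {z : ℂ | (j : ℕ) = m + 2 ∨ z.re < rcut m (j + 1)} := by
      by_cases a : (j : ℕ) = m + 2
      · simpa [a] using convex_univ
      · simpa [a] using convex_halfSpace_re_lt (rcut m (j + 1))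
    exact c1.inter c2
  · have key : ∀ i j : Fin (m + 3), (i : ℕ) < j → Disjoint (atom m i) (atom m j) := by
      intro i j hij
      rw [Set.disjoint_left]
      rintro z ⟨-, h1⟩ ⟨h2, -⟩
      have := j.isLt
      have a := h1.resolve_left (by omega)
      have b := h2.resolve_left (by omega)
      have := rcut_mono m (i := i + 1) (j := j) hij
      linarith
    intro i j hij
    rcases lt_trichotomy (i : ℕ) j with a | a | a
    · exact key i j a
    · exact absurd (Fin.ext a) hij
    · exact (key j i a).symm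
  · rw [eq_univ_iff_forall]
    intro z
    obtain ⟨j, hj, h1, h2⟩ := exists_slot (rcut m) z.re (m + 2)
    exact mem_iUnion.mpr ⟨⟨j, by omega⟩, h1, h2⟩
  · obtain ⟨θ1, hθ1, e1⟩ := exists_angle _ norm_w1
    obtain ⟨θ2, hθ2, e2⟩ := exists_angle _ norm_w2
    refine ⟨fun j => if (j : ℕ) ≤ m then 0 else if (j : ℕ) = m + 1 then θ1 else θ2,
      fun j => if (j : ℕ) ≤ m then 4 else if (j : ℕ) = m + 1 then (7 - 9 * I) / 5
        else (-1 + 3 * I), ?_, ?_⟩
    · intro j
      simp only
      split_ifs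
      · exact ⟨le_rfl, by positivity⟩
      · exact hθ1
      · exact hθ2
    · rintro j z ⟨h1, h2⟩
      have := j.isLt
      simp only
      split_ifs with a b
      · have c := h2.resolve_left (by omega)
        have d := rcut_mono m (i := j + 1) (j := m + 1) (by omega)
        rw [rcut_one] at d
        rw [TT, if_pos (by linarith)]
        simp
      · have c := h1.resolve_left (by omega)
        have d := h2.resolve_left (by omega)
        rw [b, rcut_one] at c
        rw [b, rcut_two] at d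
        rw [TT, if_neg (by linarith), if_pos d, e1]
      · have c := h1.resolve_left (by omega)
        rw [show (j : ℕ) = m + 2 by omega, rcut_two] at c
        rw [TT, if_neg (by linarith), if_neg (by linarith), e2]

theorem Curve.conjugacy (H : Curve h) {x : ℝ} (hx : x ∈ Ico 0 (2 * rr + 1)) :
    h (ff x) = TT (h x) := by
  have hr := rr_pos
  rcases lt_or_ge x 1 with a | a
  · rw [ff, if_pos a, TT, if_pos (H.re_lt_one a), H.idA hx.1 a.le]
  rcases lt_or_ge x (1 + rr) with b | b
  · rw [ff, if_neg (by linarith), if_pos b, TT, if_neg (not_lt.mpr (H.re_ge_one a)),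
      if_pos (H.re_lt_three b), H.idB a b.le]
  · rw [ff, if_neg (by linarith), if_neg (by linarith), TT, if_neg (not_lt.mpr (H.re_ge_one a)),
      if_neg (not_lt.mpr (H.re_ge_three b)), H.idC b hx.2.le]

theorem Curve.isEmb (H : Curve h) (m : ℕ) : IsContEmbedding (len m) ff (atom m) TT h := by
  refine ⟨?_, H.cont.continuousOn, ?_, H.image_atom m, ?_, ?_⟩
  · rw [whole_len]
    exact H.injOn.mono Ico_subset_Icc_self
  · intro j
    have hsub : piece (len m) j ⊆ Icc 0 (2 * rr + 1) := by
      rw [piece_len]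
      intro x hx
      have := j.isLt
      have a := cut_mono m (i := 0) (j := j) (by omega) (by omega)
      have b := cut_mono m (i := j + 1) (j := m + 3) (by omega) le_rfl
      rw [cut_zero] at a
      rw [cut_three] at b
      exact ⟨by linarith [hx.1], by linarith [hx.2]⟩
    have h1 : Topology.IsClosedEmbedding ((Icc (0 : ℝ) (2 * rr + 1)).domRestrict h) :=
      (H.cont.comp continuous_subtype_val).isClosedEmbedding (injOn_iff_injective.mp H.injOn)
    exact h1.isEmbedding.comp (Topology.IsEmbedding.inclusion hsub)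
  · rw [whole_len]
    apply Subset.antisymm
    · rintro _ ⟨_, ⟨x, hx, rfl⟩, rfl⟩
      exact ⟨ff x, ff_maps hx, H.conjugacy hx⟩
    · rintro _ ⟨y, hy, rfl⟩
      obtain ⟨x, hx, rfl⟩ := ff_surj hy
      exact ⟨h x, ⟨x, hx, rfl⟩, (H.conjugacy hx).symm⟩
  · intro x hx
    rw [whole_len] at hx
    exact H.conjugacy hx

theorem IsLinearOn.collinear {S : Set ℝ} (hl : IsLinearOn h S) : Collinear ℝ (h '' S) := by
  obtain ⟨z, v, hz⟩ := hl
  rw [collinear_iff_exists_forall_eq_smul_vadd]
  refine ⟨z, v, ?_⟩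
  rintro _ ⟨x, hx, rfl⟩
  refine ⟨x, ?_⟩
  rw [hz x hx]
  simp only [vadd_eq_add, real_smul]
  ring

theorem IsArcOn.cospherical {S : Set ℝ} (hl : IsArcOn h S) :
    EuclideanGeometry.Cospherical (h '' S) := by
  obtain ⟨z, r, a, b, hr, hz⟩ := hl
  refine ⟨z, r, ?_⟩
  rintro _ ⟨x, hx, rfl⟩
  rw [hz x hx, Complex.dist_eq, add_sub_cancel_left, norm_mul, Complex.norm_exp_ofReal_mul_I,
    mul_one, Complex.norm_real, Real.norm_eq_abs, abs_of_pos hr]

theorem main (d : ℕ) (hd : 3 ≤ d) :
    ∃ (π : Equiv.Perm (Fin d)) (μ : Fin d → ℝ) (f : ℝ → ℝ) (X : Fin d → Set ℂ) (T : ℂ → ℂ)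
      (h : ℝ → ℂ), Irreducible π ∧ (∀ j, 0 < μ j) ∧ IsIET π μ f ∧ IsMinimal μ f ∧ IsPWI X T ∧
      IsContEmbedding μ f X T h ∧ ¬ IsTrivial μ h ∧
      ∀ a ∈ whole μ, ∀ b ∈ whole μ, a < b →
        ¬ Collinear ℝ (h '' Icc a b) ∧ ¬ EuclideanGeometry.Cospherical (h '' Icc a b) := by
  obtain ⟨m, rfl⟩ : ∃ m, d = m + 3 := ⟨d - 3, by omega⟩
  obtain ⟨h, H⟩ := exists_curve'
  have hr := rr_pos
  refine ⟨perm m, len m, ff, atom m, TT, h, perm_irr m,
    fun j => sub_pos.mpr (cut_lt m j j.isLt), ff_isIET m, ?_, H.isPWI m, H.isEmb m, ?_, ?_⟩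
  · intro x hx
    rw [whole_len] at hx ⊢
    exact ff_minimal hx
  · have hc : Copy (h '' Icc 1 (1 + rr / 2)) := H.copy zero_le_one (by linarith) (by linarith)
    have hsub : h '' Icc 1 (1 + rr / 2) ⊆ h '' piece (len m) (iB m) := by
      apply image_mono
      rw [piece_len]
      change _ ⊆ Ico (cut m (m + 1)) (cut m (m + 2))
      rw [cut_one, cut_two]
      intro x hx
      exact ⟨hx.1, by linarith [hx.2]⟩
    rintro (hl | ha)
    · exact hc.not_collinear ((hl (iB m)).collinear.subset hsub)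
    · exact hc.not_cospherical ((ha (iB m)).cospherical.subset hsub)
  · intro a ha b hb hab
    rw [whole_len] at ha hb
    have hc := H.copy ha.1 hab hb.2.le
    exact ⟨hc.not_collinear, hc.not_cospherical⟩

end Pool.Agent.H297Z.IET
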