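import Pool.Agent.H297Z.IETCurve

set_option autoImplicit false

namespace Pool.Agent.H297Z.IET

open Set Complex

structure Curve (h : ℝ → ℂ) : Prop where
  cont : Continuous h
  pin : Pinned h
  hull : ∀ x, h x ∈ QQ
  eq : ∀ x, h x = Phi h x

theorem exists_curve' : ∃ h, Curve h := by
  obtain ⟨h, a, b, c, d⟩ := exists_curve
  exact ⟨h, ⟨a, b, c, d⟩⟩

variable {h : ℝ → ℂ}

theorem Curve.eA (H : Curve h) {x : ℝ} (hx : x ≤ 1) : h x = h (rr ^ 2 * x) / 5 := by
  rw [H.eq x, Phi_A H.pin hx]

theorem Curve.eB (H : Curve h) {x : ℝ} (hx : 1 ≤ x) (hx' : x ≤ 1 + rr) :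
    h x = 1 + (2 - I) / 5 * h (rr * (x - 1)) := by
  rw [H.eq x, Phi_B H.pin hx hx']

theorem Curve.eC (H : Curve h) {x : ℝ} (hx : 1 + rr ≤ x) :
    h x = 3 - I + (2 + I) / 5 * (starRingEnd ℂ) (h (rr * (x - 1 - rr))) := by
  rw [H.eq x, Phi_C H.pin hx]

theorem Curve.re_ge_one (H : Curve h) {x : ℝ} (hx : 1 ≤ x) : 1 ≤ (h x).re := by
  rcases le_total x (1 + rr) with h' | h'
  · rw [H.eB hx h', re_B]
    obtain ⟨a, b, c, d⟩ := H.hull (rr * (x - 1))
    linarith
  · rw [H.eC h', re_C]
    obtain ⟨a, b, c, d⟩ := H.hull (rr * (x - 1 - rr))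
    linarith

theorem Curve.re_ge_three (H : Curve h) {x : ℝ} (hx : 1 + rr ≤ x) : 3 ≤ (h x).re := by
  rw [H.eC hx, re_C]
  obtain ⟨a, b, c, d⟩ := H.hull (rr * (x - 1 - rr))
  linarith

theorem Curve.re_le_three (H : Curve h) {x : ℝ} (hx : x ≤ 1 + rr) : (h x).re ≤ 3 := by
  rcases le_total x 1 with h' | h'
  · rw [H.eA h', re_A]
    obtain ⟨a, b, c, d⟩ := H.hull (rr ^ 2 * x)
    linarith
  · rw [H.eB h' hx, re_B]
    obtain ⟨a, b, c, d⟩ := H.hull (rr * (x - 1))
    linarith

theorem exists_pow_gt (a b : ℝ) (ha : 0 < a) : ∃ n : ℕ, b < rr ^ n * a := by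
  obtain ⟨n, hn⟩ := pow_unbounded_of_one_lt (b / a) (show (1 : ℝ) < rr by linarith [rr_gt])
  exact ⟨n, by rwa [div_lt_iff₀ ha] at hn⟩

theorem Curve.re_lt_five (H : Curve h) {x : ℝ} (hx : x < 2 * rr + 1) : (h x).re < 5 := by
  have hr := rr_pos
  have key : ∀ n : ℕ, ∀ x : ℝ, rr < rr ^ n * (2 * rr + 1 - x) → (h x).re < 5 := by
    intro n
    induction n with
    | zero =>
      intro x hx
      have := H.re_le_three (x := x) (by simp at hx; linarith)
      linarith
    | succ n ih =>
      intro x hx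
      rcases le_total x (1 + rr) with h' | h'
      · have := H.re_le_three h'
        linarith
      · have h1 := ih (rr * (x - 1 - rr)) (by
          have e : 2 * rr + 1 - rr * (x - 1 - rr) = rr * (2 * rr + 1 - x) := by
            have := rr_sq
            nlinarith
          rw [e, ← mul_assoc, ← pow_succ]
          exact hx)
        rw [H.eC h', re_C]
        obtain ⟨a, b, c, d⟩ := H.hull (rr * (x - 1 - rr))
        linarith
  obtain ⟨n, hn⟩ := exists_pow_gt (2 * rr + 1 - x) rr (by linarith)
  exact key n x hn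

theorem Curve.re_lt_one (H : Curve h) {x : ℝ} (hx : x < 1) : (h x).re < 1 := by
  rw [H.eA hx.le, re_A]
  have := H.re_lt_five (x := rr ^ 2 * x) (by
    have := rr_sq
    have := rr_pos
    nlinarith)
  linarith

theorem Curve.re_lt_three (H : Curve h) {x : ℝ} (hx : x < 1 + rr) : (h x).re < 3 := by
  rcases lt_or_ge x 1 with h' | h'
  · have := H.re_lt_one h'
    linarith
  · rw [H.eB h' hx.le, re_B]
    obtain ⟨a, b, c, d⟩ := H.hull (rr * (x - 1))
    have := H.re_lt_five (x := rr * (x - 1)) (by
      have := rr_sq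
      have := rr_pos
      nlinarith)
    linarith

theorem c1_ne : (2 - I) / 5 ≠ 0 := by
  intro h
  have := congrArg Complex.re h
  simp at this

theorem c2_ne : (2 + I) / 5 ≠ 0 := by
  intro h
  have := congrArg Complex.re h
  simp at this

theorem Curve.injOn (H : Curve h) : InjOn h (Icc 0 (2 * rr + 1)) := by
  have hr := rr_pos
  have hr2 := rr_gt
  have hs := rr_sq
  have key : ∀ n : ℕ, ∀ x y : ℝ, 0 ≤ x → y ≤ 2 * rr + 1 → x < y →
      2 * rr + 1 < rr ^ n * (y - x) → h x ≠ h y := by
    intro n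
    induction n with
    | zero =>
      intro x y hx hy _ hn
      simp at hn
      linarith
    | succ n ih =>
      intro x y hx hy hxy hn heq
      have hp : 0 < rr ^ n := pow_pos hr n
      rw [pow_succ] at hn
      rcases lt_or_ge y 1 with hy1 | hy1
      · refine ih (rr ^ 2 * x) (rr ^ 2 * y) (by positivity) (by nlinarith) (by nlinarith) ?_ ?_
        · have : rr ^ n * rr * (y - x) ≤ rr ^ n * (rr ^ 2 * y - rr ^ 2 * x) := by
            rw [mul_assoc]
            apply mul_le_mul_of_nonneg_left _ hp.le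
            nlinarith
          linarith
        · rw [H.eA (x := x) (by linarith), H.eA hy1.le] at heq
          exact (div_left_inj' (by norm_num)).mp heq
      rcases lt_or_ge x 1 with hx1 | hx1
      · have a := H.re_lt_one hx1
        have b := H.re_ge_one hy1
        rw [heq] at a
        linarith
      rcases lt_or_ge y (1 + rr) with hy2 | hy2
      · refine ih (rr * (x - 1)) (rr * (y - 1)) (by nlinarith) (by nlinarith) (by nlinarith) ?_ ?_
        · have : rr ^ n * (rr * (y - 1) - rr * (x - 1)) = rr ^ n * rr * (y - x) := by ring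
          linarith
        · rw [H.eB hx1 (by linarith), H.eB hy1 hy2.le, add_right_inj] at heq
          exact mul_left_cancel₀ c1_ne heq
      rcases lt_or_ge x (1 + rr) with hx2 | hx2
      · have a := H.re_lt_three hx2
        have b := H.re_ge_three hy2
        rw [heq] at a
        linarith
      · refine ih (rr * (x - 1 - rr)) (rr * (y - 1 - rr)) (by nlinarith) (by nlinarith)
          (by nlinarith) ?_ ?_
        · have : rr ^ n * (rr * (y - 1 - rr) - rr * (x - 1 - rr)) = rr ^ n * rr * (y - x) := by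
            ring
          linarith
        · rw [H.eC hx2, H.eC hy2, add_right_inj] at heq
          exact (starRingEnd ℂ).injective (mul_left_cancel₀ c2_ne heq)
  have key2 : ∀ x y : ℝ, 0 ≤ x → y ≤ 2 * rr + 1 → x < y → h x ≠ h y := by
    intro x y hx hy hxy
    obtain ⟨n, hn⟩ := exists_pow_gt (y - x) (2 * rr + 1) (by linarith)
    exact key n x y hx hy hxy hn
  intro x hx y hy heq
  rcases lt_trichotomy x y with hxy | hxy | hxy
  · exact absurd heq (key2 x y hx.1 hy.2 hxy)
  · exact hxy
  · exact absurd heq.symm (key2 y x hy.1 hx.2 hxy)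

theorem conj_five : (starRingEnd ℂ) (5 : ℂ) = 5 := map_ofNat _ 5
theorem conj_four : (starRingEnd ℂ) (4 : ℂ) = 4 := map_ofNat _ 4
theorem conj_three : (starRingEnd ℂ) (3 : ℂ) = 3 := map_ofNat _ 3
theorem conj_two : (starRingEnd ℂ) (2 : ℂ) = 2 := map_ofNat _ 2

theorem conj_c1 : (starRingEnd ℂ) ((2 - I) / 5) = (2 + I) / 5 := by
  simp [conj_two, conj_five]

theorem conj_c2 : (starRingEnd ℂ) ((2 + I) / 5) = (2 - I) / 5 := by
  simp [conj_two, conj_five, sub_eq_add_neg]

/-- the conjugacy on the first interval -/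
theorem Curve.idA (H : Curve h) {x : ℝ} (hx : 0 ≤ x) (hx' : x ≤ 1) :
    h (x + 2 * rr) = h x + 4 := by
  have hr := rr_pos
  have hr2 := rr_gt
  have hs := rr_sq
  rw [H.eC (x := x + 2 * rr) (by linarith),
    H.eC (x := rr * (x + 2 * rr - 1 - rr)) (by nlinarith), H.eA hx']
  have e : rr * (rr * (x + 2 * rr - 1 - rr) - 1 - rr) = rr ^ 2 * x := by
    have : rr * (x + 2 * rr - 1 - rr) - 1 - rr = rr * x := by nlinarith
    rw [this]
    ring
  rw [e]
  simp only [map_add, map_sub, map_mul, conj_c2, conj_three, conj_I, Complex.conj_conj]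
  linear_combination (-(h (rr ^ 2 * x)) / 25 + 1 / 5) * I_mul_I

/-- error terms -/
noncomputable def erB (h : ℝ → ℂ) (u : ℝ) : ℂ := h (rr + u) - (2 - I) - (2 + I) / 5 * h (rr * u)
noncomputable def erC (h : ℝ → ℂ) (u : ℝ) : ℂ :=
  h u - (2 - I) / 5 * (starRingEnd ℂ) (h (rr * u))
noncomputable def erD (h : ℝ → ℂ) (u : ℝ) : ℂ := h (rr + u) - (2 - I) - (starRingEnd ℂ) (h u)

theorem eD_eq (u : ℝ) : erD h u = erB h u - (starRingEnd ℂ) (erC h u) := by
  simp only [erD, erB, erC, map_sub, map_mul, conj_c1, Complex.conj_conj]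
  ring

theorem Curve.step (H : Curve h) {M : ℝ}
    (hM : ∀ u, 0 ≤ u → u ≤ rr → ‖erB h u‖ ≤ M ∧ ‖erC h u‖ ≤ M) :
    ∀ u, 0 ≤ u → u ≤ rr → ‖erB h u‖ ≤ 9 / 10 * M ∧ ‖erC h u‖ ≤ 9 / 10 * M := by
  have hr := rr_pos
  have hr2 := rr_gt
  have hs := rr_sq
  have hM0 : 0 ≤ M := (norm_nonneg _).trans (hM 0 le_rfl hr.le).1
  have hD0 : ∀ u, 0 ≤ u → u ≤ rr → ‖erD h u‖ ≤ 2 * M := by
    intro u h0 h1
    rw [eD_eq]
    refine (norm_sub_le _ _).trans ?_
    rw [Complex.norm_conj]
    linarith [(hM u h0 h1).1, (hM u h0 h1).2]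
  have hD : ∀ u, 0 ≤ u → u ≤ 1 + rr → ‖erD h u‖ ≤ 2 * M := by
    intro u h0 h1
    rcases le_total u rr with h2 | h2
    · exact hD0 u h0 h2
    · have e : erD h u = - (starRingEnd ℂ) (erD h (u - rr)) := by
        have a := H.idA (x := u - rr) (by linarith) (by linarith)
        have b : u - rr + 2 * rr = rr + u := by ring
        have c : rr + (u - rr) = u := by ring
        rw [b] at a
        simp only [erD, a, c, map_sub, conj_two, conj_I, Complex.conj_conj]
        ring
      rw [e, norm_neg, Complex.norm_conj]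
      exact hD0 _ (by linarith) (by linarith)
  intro u h0 h1
  rcases le_total u 1 with hu | hu
  · have hC := (hM (rr * u) (by positivity) (by nlinarith)).2
    constructor
    · have e : erB h u = - ((2 + I) / 5 * erC h (rr * u)) := by
        have a := H.eB (x := rr + u) (by linarith) (by linarith)
        have b := H.eC (x := rr * (rr + u - 1)) (by nlinarith)
        have c : rr * (rr * (rr + u - 1) - 1 - rr) = rr * (rr * u) := by
          have : rr * (rr + u - 1) - 1 - rr = rr * u := by nlinarith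
          rw [this]
        rw [c] at b
        simp only [erB, erC]
        rw [a, b]
        linear_combination (1 / 5) * I_mul_I
      rw [e, norm_neg, norm_mul]
      have := mul_le_mul norm_c2 hC (norm_nonneg _) (by norm_num)
      linarith
    · have e : erC h u = - ((2 - I) / 5 * (starRingEnd ℂ) (erC h (rr * u))) := by
        have a := H.eA hu
        have c : rr ^ 2 * u = rr * (rr * u) := by ring
        rw [c] at a
        simp only [erC, map_sub, map_mul, conj_c1, Complex.conj_conj]
        rw [a]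
        linear_combination (h (rr * (rr * u)) / 25) * I_mul_I
      rw [e, norm_neg, norm_mul, Complex.norm_conj]
      have := mul_le_mul norm_c1 hC (norm_nonneg _) (by norm_num)
      linarith
  · have hDu := hD (rr * (u - 1)) (by nlinarith) (by nlinarith)
    have c : rr + rr * (u - 1) = rr * u := by ring
    constructor
    · have e : erB h u = - ((2 + I) / 5 * erD h (rr * (u - 1))) := by
        have a := H.eC (x := rr + u) (by linarith)
        have b : rr + u - 1 - rr = u - 1 := by ring
        rw [b] at a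
        simp only [erB, erD, c]
        rw [a]
        linear_combination (1 / 5) * I_mul_I
      rw [e, norm_neg, norm_mul]
      have := mul_le_mul norm_c2 hDu (norm_nonneg _) (by norm_num)
      linarith
    · have e : erC h u = - ((2 - I) / 5 * (starRingEnd ℂ) (erD h (rr * (u - 1)))) := by
        have a := H.eB hu (by linarith)
        simp only [erC, erD, c, map_sub, conj_two, conj_I, Complex.conj_conj]
        rw [a]
        linear_combination (1 / 5) * I_mul_I
      rw [e, norm_neg, norm_mul, Complex.norm_conj]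
      have := mul_le_mul norm_c1 hDu (norm_nonneg _) (by norm_num)
      linarith

theorem Curve.err_zero (H : Curve h) (u : ℝ) (h0 : 0 ≤ u) (h1 : u ≤ rr) :
    erB h u = 0 ∧ erC h u = 0 := by
  have key : ∀ n : ℕ, ∀ u, 0 ≤ u → u ≤ rr →
      ‖erB h u‖ ≤ 20 * (9 / 10) ^ n ∧ ‖erC h u‖ ≤ 20 * (9 / 10) ^ n := by
    intro n
    induction n with
    | zero =>
      intro u _ _
      have n2 : ‖(2 : ℂ) - I‖ ≤ 3 := by
        refine (norm_sub_le _ _).trans ?_
        simp
        norm_num
      constructor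
      · unfold erB
        refine (norm_sub_le _ _).trans ?_
        have a := norm_sub_le (h (rr + u)) (2 - I)
        have b := QQ_norm (H.hull (rr + u))
        have c := mul_le_mul norm_c2 (QQ_norm (H.hull (rr * u))) (norm_nonneg _) (by norm_num)
        rw [norm_mul]
        norm_num at c ⊢
        linarith
      · unfold erC
        refine (norm_sub_le _ _).trans ?_
        have b := QQ_norm (H.hull u)
        have c := mul_le_mul norm_c1 (QQ_norm (H.hull (rr * u))) (norm_nonneg _) (by norm_num)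
        rw [norm_mul, Complex.norm_conj]
        norm_num at c ⊢
        linarith
    | succ n ih =>
      intro u a b
      have := H.step ih u a b
      rw [pow_succ]
      constructor <;> linarith [this.1, this.2]
  have lim : Filter.Tendsto (fun n : ℕ => (20 : ℝ) * (9 / 10) ^ n) Filter.atTop (nhds 0) := by
    have := (tendsto_pow_atTop_nhds_zero_of_lt_one (r := (9 / 10 : ℝ)) (by norm_num)
      (by norm_num)).const_mul 20
    simpa using this
  constructor
  · exact norm_le_zero_iff.mp (ge_of_tendsto' lim fun n => (key n u h0 h1).1)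
  · exact norm_le_zero_iff.mp (ge_of_tendsto' lim fun n => (key n u h0 h1).2)

/-- the conjugacy on the second interval -/
theorem Curve.idB (H : Curve h) {x : ℝ} (hx : 1 ≤ x) (hx' : x ≤ 1 + rr) :
    h (x + (rr - 1)) = (3 + 4 * I) / 5 * h x + (7 - 9 * I) / 5 := by
  have a := (H.err_zero (x - 1) (by linarith) (by linarith)).1
  have b : rr + (x - 1) = x + (rr - 1) := by ring
  simp only [erB, b] at a
  rw [H.eB hx hx']
  linear_combination a + (4 * h (rr * (x - 1)) / 25) * I_mul_I

/-- the conjugacy on the third interval -/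
theorem Curve.idC (H : Curve h) {x : ℝ} (hx : 1 + rr ≤ x) (hx' : x ≤ 2 * rr + 1) :
    h (x + (-(1 + rr))) = (3 - 4 * I) / 5 * h x + (-1 + 3 * I) := by
  have a := (H.err_zero (x - 1 - rr) (by linarith) (by linarith)).2
  have b : x + (-(1 + rr)) = x - 1 - rr := by ring
  simp only [erC] at a
  rw [b, H.eC hx]
  linear_combination a +
    (4 * (starRingEnd ℂ) (h (rr * (x - 1 - rr))) / 25 - 4 / 5) * I_mul_I

theorem Curve.scale (H : Curve h) (k : ℕ) {x : ℝ} (hx : x ≤ 2 * rr + 1) :
    h (x / (rr ^ 2) ^ k) = h x / 5 ^ k := by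
  have hr := rr_pos
  have hs := rr_sq
  induction k with
  | zero => simp
  | succ k ih =>
    have hp : 1 ≤ (rr ^ 2) ^ k := one_le_pow₀ (by nlinarith)
    have h1 : x / (rr ^ 2) ^ (k + 1) ≤ 1 := by
      rw [div_le_one (by positivity), pow_succ]
      nlinarith
    rw [H.eA h1]
    have e : rr ^ 2 * (x / (rr ^ 2) ^ (k + 1)) = x / (rr ^ 2) ^ k := by
      field_simp
      ring
    rw [e, ih, pow_succ, div_div]

theorem Curve.re_lt_cut (H : Curve h) (k : ℕ) {x : ℝ} (hx : x < 1 / (rr ^ 2) ^ k) :
    (h x).re < 1 / 5 ^ k := by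
  have hr := rr_pos
  have hp : 0 < (rr ^ 2) ^ k := by positivity
  rw [lt_div_iff₀ hp] at hx
  have a := H.scale k (x := x * (rr ^ 2) ^ k) (by linarith)
  rw [mul_div_cancel_right₀ _ hp.ne'] at a
  have b := H.re_lt_one hx
  have e : (h (x * (rr ^ 2) ^ k) / 5 ^ k).re = (h (x * (rr ^ 2) ^ k)).re / 5 ^ k := by
    have : (5 : ℂ) ^ k = ((5 ^ k : ℝ) : ℂ) := by push_cast; rfl
    rw [this, Complex.div_ofReal_re]
  rw [a, e]
  exact div_lt_div_of_pos_right b (by positivity)

theorem Curve.re_ge_cut (H : Curve h) (k : ℕ) : ∀ x : ℝ, 1 / (rr ^ 2) ^ k ≤ x →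
    1 / 5 ^ k ≤ (h x).re := by
  have hr := rr_pos
  induction k with
  | zero =>
    intro x hx
    simpa using H.re_ge_one (by simpa using hx)
  | succ k ih =>
    intro x hx
    rcases le_total x 1 with h1 | h1
    · rw [H.eA h1, re_A]
      have := ih (rr ^ 2 * x) (by
        rw [div_le_iff₀ (by positivity)] at hx ⊢
        rw [pow_succ] at hx
        linarith)
      rw [pow_succ, ← div_div]
      linarith
    · have a := H.re_ge_one h1
      have b : (1 : ℝ) / 5 ^ (k + 1) ≤ 1 := by
        rw [div_le_one (by positivity)]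
        exact one_le_pow₀ (by norm_num)
      linarith

end Pool.Agent.H297Z.IET
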