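import Mathlib

set_option autoImplicit false

namespace Pool.Agent.H297Z.Short

open Set

variable {L : Type} [LinearOrder L]

theorem exists_cofinal (h1 : ∀ S : Set L, S.WellFoundedOn (· < ·) → S.Countable) (S : Set L) :
    ∃ T ⊆ S, T.Countable ∧ ∀ s ∈ S, ∃ t ∈ T, s ≤ t := by
  classical
  let r : L → L → Prop := WellOrderingRel
  have hr : IsWellOrder L r := WellOrderingRel.isWellOrder
  let T : Set L := {s | s ∈ S ∧ ∀ s' ∈ S, r s' s → s' < s}
  refine ⟨T, fun s hs => hs.1, h1 T ?_, ?_⟩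
  · have hw : WellFounded (fun a b : T => r a.1 b.1) := InvImage.wf Subtype.val hr.wf
    refine Subrelation.wf ?_ hw
    intro a b hab
    have hab' : a.1 < b.1 := hab
    rcases trichotomous_of r a.1 b.1 with h | h | h
    · exact h
    · exact absurd h hab'.ne
    · exact absurd (a.2.2 b.1 b.2.1 h) hab'.not_gt
  · intro s hs
    have hne : ({t | t ∈ S ∧ s ≤ t} : Set L).Nonempty := ⟨s, hs, le_rfl⟩
    let t := hr.wf.min _ hne
    have ht : t ∈ S ∧ s ≤ t := hr.wf.min_mem _ hne
    refine ⟨t, ⟨ht.1, ?_⟩, ht.2⟩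
    intro s' hs' hrs
    by_contra hcon
    have : s' ∈ ({t | t ∈ S ∧ s ≤ t} : Set L) := ⟨hs', ht.2.trans (not_lt.mp hcon)⟩
    exact hr.wf.not_lt_min _ this hrs

theorem low_countable (h1 : ∀ S : Set L, S.WellFoundedOn (· < ·) → S.Countable) (U : Set L) :
    ({x | x ∈ U ∧ (U ∩ Iio x).Countable} : Set L).Countable := by
  obtain ⟨T, hT, hTc, hcof⟩ := exists_cofinal h1 {x | x ∈ U ∧ (U ∩ Iio x).Countable}
  have : ({x | x ∈ U ∧ (U ∩ Iio x).Countable} : Set L) ⊆ ⋃ t ∈ T, insert t (U ∩ Iio t) := by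
    intro x hx
    obtain ⟨t, ht, hxt⟩ := hcof x hx
    simp only [mem_iUnion]
    refine ⟨t, ht, ?_⟩
    rcases hxt.eq_or_lt with h | h
    · exact Or.inl h
    · exact Or.inr ⟨hx.1, h⟩
  refine Set.Countable.mono this ?_
  exact hTc.biUnion (fun t ht => (hT ht).2.insert t)

theorem exists_mid (h1 : ∀ S : Set L, S.WellFoundedOn (· < ·) → S.Countable)
    (h2 : ∀ S : Set L, S.WellFoundedOn (· > ·) → S.Countable) (U : Set L) (hU : ¬ U.Countable) :
    ∃ x ∈ U, ¬ (U ∩ Iio x).Countable ∧ ¬ (U ∩ Ioi x).Countable := by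
  have hA := low_countable h1 U
  have hB : ({x | x ∈ U ∧ (U ∩ Ioi x).Countable} : Set L).Countable :=
    low_countable (L := Lᵒᵈ) h2 U
  by_contra hcon
  apply hU
  refine Set.Countable.mono ?_ (hA.union hB)
  intro x hx
  by_cases h : (U ∩ Iio x).Countable
  · exact Or.inl ⟨hx, h⟩
  · refine Or.inr ⟨hx, ?_⟩
    by_contra h'
    exact hcon ⟨x, hx, h, h'⟩

theorem exists_rat_emb (h1 : ∀ S : Set L, S.WellFoundedOn (· < ·) → S.Countable)
    (h2 : ∀ S : Set L, S.WellFoundedOn (· > ·) → S.Countable)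
    (hU : ¬ (univ : Set L).Countable) :
    ∃ e : ℚ → L, StrictMono e ∧ ¬ (Ioo (e 0) (e 1)).Countable := by
  obtain ⟨x, -, hx1, hx2⟩ := exists_mid h1 h2 univ hU
  obtain ⟨y, hy, hy1, -⟩ := exists_mid h1 h2 _ hx2
  have hxy : x < y := hy.2
  have hbig : ¬ (Ioo x y).Countable := by
    intro h
    apply hy1
    refine h.mono ?_
    intro z hz
    exact ⟨hz.1.2, hz.2⟩
  let F : Set (Set L) := {P | ∀ a ∈ P, ∀ b ∈ P, a < b → ¬ (Ioo a b).Countable}
  have h0 : ({x, y} : Set L) ∈ F := by
    intro a ha b hb hab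
    rcases ha with rfl | rfl <;> rcases hb with rfl | rfl
    · exact absurd hab (lt_irrefl _)
    · exact hbig
    · exact absurd hab hxy.not_gt
    · exact absurd hab (lt_irrefl _)
  obtain ⟨P, hP0, hP⟩ := zorn_subset_nonempty F (by
    intro c hc hch _
    refine ⟨⋃₀ c, ?_, fun s hs => subset_sUnion_of_mem hs⟩
    rintro a ⟨A, hA, ha⟩ b ⟨B, hB, hb⟩ hab
    rcases hch.total hA hB with h | h
    · exact hc hB a (h ha) b hb hab
    · exact hc hA a ha b (h hb) hab) _ h0
  have hPF : P ∈ F := hP.prop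
  have : Nontrivial P := ⟨⟨⟨x, hP0 (Or.inl rfl)⟩, ⟨y, hP0 (Or.inr rfl)⟩,
    fun h => hxy.ne (congrArg Subtype.val h)⟩⟩
  have : DenselyOrdered P := by
    constructor
    rintro ⟨a, ha⟩ ⟨b, hb⟩ hab
    have hab' : a < b := hab
    by_contra hcon
    obtain ⟨z, hz, hz1, hz2⟩ := exists_mid h1 h2 _ (hPF a ha b hb hab')
    have hout : ∀ p ∈ P, p ≤ a ∨ b ≤ p := by
      intro p hp
      by_contra h
      rw [not_or, not_le, not_le] at h
      exact hcon ⟨⟨p, hp⟩, h.1, h.2⟩
    have hins : insert z P ∈ F := by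
      intro p hp q hq hpq
      rcases hp with rfl | hp <;> rcases hq with rfl | hq
      · exact absurd hpq (lt_irrefl _)
      · rcases hout q hq with h | h
        · exact absurd (hpq.trans_le h) hz.1.not_gt
        · intro hc
          apply hz2
          refine hc.mono ?_
          intro w hw
          exact ⟨hw.2, hw.1.2.trans_le h⟩
      · rcases hout p hp with h | h
        · intro hc
          apply hz1
          refine hc.mono ?_
          intro w hw
          exact ⟨h.trans_lt hw.1.1, hw.2⟩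
        · exact absurd (h.trans_lt hpq) hz.2.not_gt
      · exact hPF p hp q hq hpq
    have hzP : z ∈ P := hP.le_of_ge hins (subset_insert z P) (mem_insert z P)
    exact hcon ⟨⟨z, hzP⟩, hz.1, hz.2⟩
  obtain ⟨e⟩ := Order.embedding_from_countable_to_dense ℚ P
  refine ⟨fun q => (e q).1, fun p q hpq => e.strictMono hpq, ?_⟩
  exact hPF _ (e 0).2 _ (e 1).2 (e.strictMono zero_lt_one)

theorem main (h1 : ∀ S : Set L, S.WellFoundedOn (· < ·) → S.Countable)
    (h2 : ∀ S : Set L, S.WellFoundedOn (· > ·) → S.Countable)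
    (hL : Cardinal.aleph 1 ≤ Cardinal.mk L) :
    ∃ K : Set L, Cardinal.mk K = Cardinal.aleph 1 ∧
      ∃ g : K → ℚ, Monotone g ∧ Function.Surjective g := by
  classical
  have hU : ¬ (univ : Set L).Countable := by
    rw [← Cardinal.le_aleph0_iff_set_countable, Cardinal.mk_univ, not_le]
    exact Cardinal.aleph0_lt_aleph_one.trans_le hL
  obtain ⟨e, he, hbig⟩ := exists_rat_emb h1 h2 hU
  have hbig' : Cardinal.aleph 1 ≤ Cardinal.mk (Ioo (e 0) (e 1)) := by
    rw [← Cardinal.le_aleph0_iff_set_countable, not_le] at hbig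
    rw [← Cardinal.succ_aleph0]
    exact Order.succ_le_of_lt hbig
  obtain ⟨A, hA, hAc⟩ := Cardinal.le_mk_iff_exists_subset.mp hbig'
  let B : Set L := e '' {q | q ≤ 0 ∨ 1 ≤ q}
  have hBc : B.Countable := (Set.to_countable _).image e
  refine ⟨A ∪ B, ?_, ?_⟩
  · apply le_antisymm
    · refine (Cardinal.mk_union_le A B).trans ?_
      rw [hAc]
      have : Cardinal.mk B ≤ Cardinal.aleph 1 :=
        (Cardinal.le_aleph0_iff_set_countable.mpr hBc).trans Cardinal.aleph0_lt_aleph_one.le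
      exact (Cardinal.add_eq_left (Cardinal.aleph0_le_aleph 1) this).le
    · rw [← hAc]
      exact Cardinal.mk_le_mk_of_subset subset_union_left
  · let φ : ℚ → ℚ := fun q => min q 0 + max (q - 1) 0
    have hφ : Monotone φ := by
      intro p q hpq
      exact add_le_add (min_le_min_right _ hpq) (max_le_max_right _ (by linarith))
    let ψ : L → ℚ := fun x => if x ∈ Ioo (e 0) (e 1) then 1 / 2 else Function.invFun e x
    have hinv : ∀ q, Function.invFun e (e q) = q := Function.leftInverse_invFun he.injective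
    have hψA : ∀ x ∈ A, ψ x = 1 / 2 := fun x hx => if_pos (hA hx)
    have hψB : ∀ q : ℚ, (q ≤ 0 ∨ 1 ≤ q) → ψ (e q) = q := by
      intro q hq
      have : e q ∉ Ioo (e 0) (e 1) := by
        rintro ⟨h, h'⟩
        rw [he.lt_iff_lt] at h h'
        rcases hq with hq | hq <;> linarith
      simp only [ψ, if_neg this, hinv]
    refine ⟨fun x => φ (ψ x.1), ?_, ?_⟩
    · rintro ⟨x, hx⟩ ⟨y, hy⟩ hxy
      have hxy' : x ≤ y := hxy
      apply hφ
      change ψ x ≤ ψ y
      rcases hx with hx | ⟨p, hp, rfl⟩ <;> rcases hy with hy | ⟨q, hq, rfl⟩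
      · rw [hψA x hx, hψA y hy]
      · rw [hψA x hx, hψB q hq]
        have : (0 : ℚ) < q := he.lt_iff_lt.mp ((hA hx).1.trans_le hxy')
        rcases hq with hq | hq <;> linarith
      · rw [hψA y hy, hψB p hp]
        have : p < 1 := he.lt_iff_lt.mp (hxy'.trans_lt (hA hy).2)
        rcases hp with hp | hp <;> linarith
      · rw [hψB p hp, hψB q hq]
        exact he.le_iff_le.mp hxy'
    · intro q
      rcases le_total q 0 with hq | hq
      · refine ⟨⟨e q, Or.inr ⟨q, Or.inl hq, rfl⟩⟩, ?_⟩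
        change φ (ψ (e q)) = q
        rw [hψB q (Or.inl hq)]
        simp only [φ]
        rw [min_eq_left hq, max_eq_right (by linarith), add_zero]
      · refine ⟨⟨e (q + 1), Or.inr ⟨q + 1, Or.inr (by linarith), rfl⟩⟩, ?_⟩
        change φ (ψ (e (q + 1))) = q
        rw [hψB (q + 1) (Or.inr (by linarith))]
        simp only [φ]
        rw [min_eq_right (by linarith), max_eq_left (by linarith)]
        ring

end Pool.Agent.H297Z.Short
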